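import Mathlib

set_option autoImplicit false

/-!
A counterexample on the punctured disc `D = {|z| < 1} \ {1/2}` with `z₀ = 0` and the boundary point
`ζ = 1`. The Martin kernel with pole `1` is the Poisson kernel. The Green line in direction `1` ends
at the puncture, and near the puncture the Green function with pole `1/2` is larger.
-/

namespace Pool.Agent.Results.MP_e6ddea_an.PuncturedDisc

open InnerProductSpace Metric Set Filter Topology

/-- `h` is a positive harmonic function on `D`. -/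
def PosHarmonic (D : Set ℂ) (h : ℂ → ℝ) : Prop := HarmonicOnNhd h D ∧ ∀ z ∈ D, 0 < h z

/-- The Harnack function `H_{z₀}(z) = sup {h(z) : h positive harmonic on D, h(z₀) ≤ 1}`,
with values in `[0, ∞]`. -/
noncomputable def harnackFn (D : Set ℂ) (z₀ z : ℂ) : ENNReal :=
  ⨆ h : {h : ℂ → ℝ // PosHarmonic D h ∧ h z₀ ≤ 1}, ENNReal.ofReal (h.1 z)

/-- `g(z) + log |z - z₀|` extends to a function harmonic at `z₀`. -/
def HasLogPole (z₀ : ℂ) (g : ℂ → ℝ) : Prop :=
  ∃ k : ℂ → ℝ, HarmonicAt k z₀ ∧ ∀ᶠ z in 𝓝[≠] z₀, g z = k z - Real.log ‖z - z₀‖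

/-- `g` is the Green function of `D` with pole `z₀`: the smallest positive harmonic function on
`D \ {z₀}` with a logarithmic pole at `z₀`. -/
def IsGreenFn (D : Set ℂ) (z₀ : ℂ) (g : ℂ → ℝ) : Prop :=
  PosHarmonic (D \ {z₀}) g ∧ HasLogPole z₀ g ∧
    ∀ v, PosHarmonic (D \ {z₀}) v → HasLogPole z₀ v → ∀ z ∈ D \ {z₀}, g z ≤ v z

/-- `K` is a minimal positive harmonic function on `D`. -/
def IsMinimalHarmonic (D : Set ℂ) (K : ℂ → ℝ) : Prop :=
  PosHarmonic D K ∧ ∀ h : ℂ → ℝ, HarmonicOnNhd h D → (∀ z ∈ D, 0 ≤ h z ∧ h z ≤ K z) →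
    ∃ c : ℝ, ∀ z ∈ D, h z = c * K z

/-- `K` is a Martin kernel of `D` normalised at `z₀`: the limit of the quotients
`G(z, y n) / G(z₀, y n)` of Green functions along a sequence of poles `y n` that leaves every
compact subset of `D`. -/
def IsMartinKernel (D : Set ℂ) (z₀ : ℂ) (K : ℂ → ℝ) : Prop :=
  ∃ (y : ℕ → ℂ) (G : ℕ → ℂ → ℝ), (∀ n, y n ∈ D \ {z₀}) ∧
    (∀ C ⊆ D, IsCompact C → ∀ᶠ n in atTop, y n ∉ C) ∧ (∀ n, IsGreenFn D (y n) (G n)) ∧
    ∀ z ∈ D, Tendsto (fun n => G n z / G n z₀) atTop (𝓝 (K z))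

/-- `γ`, defined on the open interval `I`, is an integral curve of `-∇g` in `D` minus the pole `z₀`
and minus the critical points of `g`, and it issues from `z₀`. -/
def IsGradientCurve (D : Set ℂ) (z₀ : ℂ) (g : ℂ → ℝ) (γ : ℝ → ℂ) (I : Set ℝ) : Prop :=
  IsOpen I ∧ I.OrdConnected ∧ I.Nonempty ∧
  (∀ t ∈ I, γ t ∈ D \ {z₀} ∧ gradient g (γ t) ≠ 0 ∧ HasDerivAt γ (-gradient g (γ t)) t) ∧
  ∀ U ∈ 𝓝 z₀, ∃ s ∈ I, ∀ t ∈ I, t ≤ s → γ t ∈ U

/-- `γ` on `I` is a Green line issuing from `z₀` (regular or singular): a maximal integral curve of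
`-∇g` issuing from `z₀`, not continued past critical points. -/
def IsGreenLine (D : Set ℂ) (z₀ : ℂ) (g : ℂ → ℝ) (γ : ℝ → ℂ) (I : Set ℝ) : Prop :=
  IsGradientCurve D z₀ g γ I ∧
  ∀ γ' I', IsGradientCurve D z₀ g γ' I' → I ⊆ I' → EqOn γ' γ I → I' ⊆ I

/-- The curve `γ` on `I` leaves `z₀` in the direction `u`. -/
def LeavesInDirection (z₀ : ℂ) (γ : ℝ → ℂ) (I : Set ℝ) (u : ℂ) : Prop :=
  ∀ U ∈ 𝓝 u, ∃ s ∈ I, ∀ t ∈ I, t ≤ s → (γ t - z₀) / (‖γ t - z₀‖ : ℂ) ∈ U


/-- The unit disc minus the point 1/2. -/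
def DD : Set ℂ := ball (0 : ℂ) 1 \ {(1 / 2 : ℂ)}

theorem isOpen_DD : IsOpen DD := isOpen_ball.sdiff isClosed_singleton

theorem mem_DD {z : ℂ} : z ∈ DD ↔ ‖z‖ < 1 ∧ z ≠ 1 / 2 := by
  simp [DD]

theorem half_re : (1 / 2 : ℂ).re = 1 / 2 := by
  have : (1 / 2 : ℂ) = ((1 / 2 : ℝ) : ℂ) := by push_cast; rfl
  rw [this, Complex.ofReal_re]

theorem half_im : (1 / 2 : ℂ).im = 0 := by
  have : (1 / 2 : ℂ) = ((1 / 2 : ℝ) : ℂ) := by push_cast; rfl
  rw [this, Complex.ofReal_im]

theorem norm_half : ‖(1 / 2 : ℂ)‖ = 1 / 2 := by norm_num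

theorem isPreconnected_DD : IsPreconnected DD := by
  have c1 : IsPreconnected (ball (0 : ℂ) 1 ∩ {z : ℂ | 0 < z.im}) :=
    ((convex_ball _ _).inter (convex_halfSpace_im_gt 0)).isPreconnected
  have c2 : IsPreconnected (ball (0 : ℂ) 1 ∩ {z : ℂ | z.im < 0}) :=
    ((convex_ball _ _).inter (convex_halfSpace_im_lt 0)).isPreconnected
  have c3 : IsPreconnected (ball (0 : ℂ) 1 ∩ {z : ℂ | z.re < 1 / 2}) :=
    ((convex_ball _ _).inter (convex_halfSpace_re_lt (1 / 2))).isPreconnected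
  have c4 : IsPreconnected (ball (0 : ℂ) 1 ∩ {z : ℂ | 1 / 2 < z.re}) :=
    ((convex_ball _ _).inter (convex_halfSpace_re_gt (1 / 2))).isPreconnected
  have n1 : ‖(Complex.I / 2 : ℂ)‖ < 1 := by norm_num
  have n2 : ‖(-Complex.I / 2 : ℂ)‖ < 1 := by norm_num
  have n3 : ‖(3 / 5 + Complex.I / 2 : ℂ)‖ < 1 := by
    have : ‖(3 / 5 + Complex.I / 2 : ℂ)‖ ≤ 4 / 5 := by
      rw [Complex.norm_def]
      apply Real.sqrt_le_iff.mpr
      constructor
      · norm_num
      · rw [Complex.normSq_apply]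
        simp
        norm_num
    linarith
  have u1 : IsPreconnected ((ball (0 : ℂ) 1 ∩ {z : ℂ | 0 < z.im}) ∪
      (ball (0 : ℂ) 1 ∩ {z : ℂ | z.re < 1 / 2})) := by
    apply IsPreconnected.union (Complex.I / 2) _ _ c1 c3
    · exact ⟨by simpa using n1, by simp⟩
    · exact ⟨by simpa using n1, by simp⟩
  have u2 : IsPreconnected (((ball (0 : ℂ) 1 ∩ {z : ℂ | 0 < z.im}) ∪
      (ball (0 : ℂ) 1 ∩ {z : ℂ | z.re < 1 / 2})) ∪ (ball (0 : ℂ) 1 ∩ {z : ℂ | z.im < 0})) := by
    apply IsPreconnected.union (-Complex.I / 2) _ _ u1 c2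
    · refine Or.inr ⟨by simpa using n2, ?_⟩
      simp; try norm_num
    · refine ⟨by simpa using n2, ?_⟩
      simp; try norm_num
  have u3 : IsPreconnected ((((ball (0 : ℂ) 1 ∩ {z : ℂ | 0 < z.im}) ∪
      (ball (0 : ℂ) 1 ∩ {z : ℂ | z.re < 1 / 2})) ∪ (ball (0 : ℂ) 1 ∩ {z : ℂ | z.im < 0})) ∪
      (ball (0 : ℂ) 1 ∩ {z : ℂ | 1 / 2 < z.re})) := by
    apply IsPreconnected.union (3 / 5 + Complex.I / 2) _ _ u2 c4
    · exact Or.inl (Or.inl ⟨by simpa using n3, by simp⟩)
    · refine ⟨by simpa using n3, ?_⟩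
      simp
      norm_num
  convert u3 using 1
  ext z
  simp only [DD, Set.mem_sdiff, mem_singleton_iff, mem_union, mem_inter_iff, mem_ofPred_eq]
  constructor
  · rintro ⟨h1, h2⟩
    have : z.re ≠ 1 / 2 ∨ z.im ≠ 0 := by
      by_contra hcon
      push Not at hcon
      apply h2
      apply Complex.ext
      · rw [hcon.1, half_re]
      · rw [hcon.2, half_im]
    rcases this with h | h
    · rcases lt_or_gt_of_ne h with h | h
      · exact Or.inl (Or.inl (Or.inr ⟨h1, h⟩))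
      · exact Or.inr ⟨h1, h⟩
    · rcases lt_or_gt_of_ne h with h | h
      · exact Or.inl (Or.inr ⟨h1, h⟩)
      · exact Or.inl (Or.inl (Or.inl ⟨h1, h⟩))
  · rintro (((h | h) | h) | h)
    all_goals
      refine ⟨h.1, ?_⟩
      rintro rfl
      have h2 := h.2
      first
        | (rw [half_re] at h2; linarith)
        | (rw [half_im] at h2; linarith)

theorem zero_mem_DD : (0 : ℂ) ∈ DD := by rw [mem_DD]; norm_num

theorem isConnected_DD : IsConnected DD := ⟨⟨0, zero_mem_DD⟩, isPreconnected_DD⟩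

theorem not_isSimplyConnected_DD : ¬ IsSimplyConnected DD := by
  intro hsc
  obtain ⟨f, hf, hexp⟩ := Complex.exists_continuousOn_eqOn_exp_comp hsc isOpen_DD
    (g := fun z => z - 1 / 2) (by fun_prop) (by
      rintro ⟨z, hz, h⟩
      exact (mem_DD.mp hz).2 (sub_eq_zero.mp h))
  -- the circle of radius 1/4 about 1/2
  set c : ℝ → ℂ := fun θ => 1 / 2 + (1 / 4) * Complex.exp (θ * Complex.I) with hc
  have hcmem : ∀ θ, c θ ∈ DD := by
    intro θ
    rw [mem_DD]
    have h1 : ‖Complex.exp (θ * Complex.I)‖ = 1 := Complex.norm_exp_ofReal_mul_I θ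
    constructor
    · have : ‖c θ‖ ≤ ‖(1 / 2 : ℂ)‖ + ‖(1 / 4 : ℂ) * Complex.exp (θ * Complex.I)‖ := norm_add_le _ _
      rw [norm_mul, h1] at this
      have h2 : ‖(1 / 2 : ℂ)‖ = 1 / 2 := by norm_num
      have h3 : ‖(1 / 4 : ℂ)‖ = 1 / 4 := by norm_num
      rw [h2, h3] at this
      linarith
    · intro h
      have : (1 / 4 : ℂ) * Complex.exp (θ * Complex.I) = 0 := by
        have h' : (1 / 2 : ℂ) + (1 / 4) * Complex.exp (θ * Complex.I) = 1 / 2 := h
        exact add_eq_left.mp h'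
      rw [mul_eq_zero] at this
      rcases this with h | h
      · norm_num at h
      · exact Complex.exp_ne_zero _ h
  have hccont : Continuous c := by fun_prop
  set F : ℝ → ℂ := fun θ => f (c θ) - θ * Complex.I with hF
  have hFcont : Continuous F := by
    have h1 : Continuous (fun θ => f (c θ)) := hf.comp_continuous hccont hcmem
    exact h1.sub (by fun_prop)
  have hFexp : ∀ θ, Complex.exp (F θ) = 1 / 4 := by
    intro θ
    have h1 := hexp (hcmem θ)
    simp only [Function.comp_apply] at h1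
    rw [hF]
    simp only
    rw [Complex.exp_sub, h1, hc]
    simp only [add_sub_cancel_left]
    rw [mul_div_assoc, div_self (Complex.exp_ne_zero _), mul_one]
  -- F θ - F 0 lies in 2πiℤ, a continuous function with discrete values
  have hFint : ∀ θ, ∃ n : ℤ, F θ = F 0 + n * (2 * Real.pi * Complex.I) := by
    intro θ
    have := (Complex.exp_eq_exp_iff_exists_int).mp ((hFexp θ).trans (hFexp 0).symm)
    exact this
  have hconst : ∀ θ, F θ = F 0 := by
    have hG : ∀ θ, ∃ n : ℤ, ((F θ - F 0).im / (2 * Real.pi)) = n := by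
      intro θ
      obtain ⟨n, hn⟩ := hFint θ
      refine ⟨n, ?_⟩
      rw [hn]
      simp
    have hcont : Continuous (fun θ => ((F θ - F 0).im / (2 * Real.pi))) :=
      (Complex.continuous_im.comp (hFcont.sub continuous_const)).div_const _
    have hloc : ∀ θ, ((F θ - F 0).im / (2 * Real.pi)) = ((F 0 - F 0).im / (2 * Real.pi)) := by
      intro θ
      refine IsPreconnected.constant_of_mapsTo isPreconnected_univ
        (T := Set.range ((↑) : ℤ → ℝ)) Int.isClosedEmbedding_coe_real.isInducing.isDiscrete_range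
        hcont.continuousOn ?_ (mem_univ θ) (mem_univ 0)
      intro x _
      obtain ⟨n, hn⟩ := hG x
      exact ⟨n, hn.symm⟩
    intro θ
    obtain ⟨n, hn⟩ := hFint θ
    have h1 := hloc θ
    rw [hn] at h1
    simp at h1
    rw [hn, h1]
    simp
  have h2π := hconst (2 * Real.pi)
  have hc2 : c (2 * Real.pi) = c 0 := by
    rw [hc]
    simp
  rw [hF] at h2π
  simp only at h2π
  rw [hc2] at h2π
  simp at h2π



/-- The complex gradient `h_x - i h_y`. -/
noncomputable def cgrad (h : ℂ → ℝ) (z : ℂ) : ℂ := fderiv ℝ h z 1 - Complex.I * fderiv ℝ h z Complex.I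

theorem fderiv_eq_cgrad (h : ℂ → ℝ) (z w : ℂ) : fderiv ℝ h z w = (cgrad h z * w).re := by
  have hw : w = (w.re : ℝ) • (1 : ℂ) + (w.im : ℝ) • Complex.I := by
    simp
  conv_lhs => rw [hw]
  rw [map_add, map_smul, map_smul, cgrad]
  simp [Complex.mul_re]
  ring

theorem hasFDerivAt_re {F : ℂ → ℂ} {F' z : ℂ} (hF : HasDerivAt F F' z) :
    HasFDerivAt (fun w => (F w).re) (Complex.reCLM.comp (F' • (1 : ℂ →L[ℝ] ℂ))) z :=
  Complex.reCLM.hasFDerivAt.comp z hF.complexToReal_fderiv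

theorem cgrad_re {F : ℂ → ℂ} {F' z : ℂ} {h : ℂ → ℝ} (hF : HasDerivAt F F' z)
    (hh : h =ᶠ[𝓝 z] fun w => (F w).re) : cgrad h z = F' := by
  have h1 := (hasFDerivAt_re hF).congr_of_eventuallyEq hh
  rw [cgrad, h1.fderiv]
  apply Complex.ext <;> simp

/-- derivative of a differentiable real function along a curve -/
theorem hasDerivAt_comp_curve {h : ℂ → ℝ} {c : ℝ → ℂ} {c' : ℂ} {t : ℝ}
    (hd : DifferentiableAt ℝ h (c t)) (hc : HasDerivAt c c' t) :
    HasDerivAt (fun s => h (c s)) (cgrad h (c t) * c').re t := by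
  have := hd.hasFDerivAt.comp_hasDerivAt t hc
  rw [fderiv_eq_cgrad] at this
  exact this

theorem grad_bound (h : ℂ → ℝ) (z : ℂ) (r M : ℝ) (hr : 0 < r) (hM : 0 < M)
    (hh : HarmonicOnNhd h (ball z r)) (hb : ∀ w ∈ ball z r, |h w| ≤ M) :
    ‖cgrad h z‖ ≤ 20 * M / r := by
  obtain ⟨F, hF, hFh⟩ := hh.exists_analyticOnNhd_ball_re_eq
  have hFd : DifferentiableOn ℂ F (ball z r) := hF.differentiableOn
  set E : ℂ → ℂ := fun w => Complex.exp (F w / M) with hE
  have hEd : DifferentiableOn ℂ E (ball z r) := (hFd.div_const _).cexp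
  have hzr : z ∈ ball z r := mem_ball_self hr
  have hnE : ∀ w ∈ ball z r, ‖E w‖ = Real.exp (h w / M) := by
    intro w hw
    rw [hE]
    simp only
    rw [Complex.norm_exp]
    congr 1
    rw [Complex.div_ofReal_re]
    have := hFh hw
    simp only at this
    rw [this]
  have hEle : ∀ w ∈ ball z r, ‖E w‖ ≤ Real.exp 1 := by
    intro w hw
    rw [hnE w hw]
    apply Real.exp_le_exp.mpr
    rw [div_le_one hM]
    exact (abs_le.mp (hb w hw)).2
  have hEge : Real.exp (-1) ≤ ‖E z‖ := by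
    rw [hnE z hzr]
    apply Real.exp_le_exp.mpr
    rw [le_div_iff₀ hM]
    linarith [(abs_le.mp (hb z hzr)).1]
  have hder : ‖deriv E z‖ ≤ Real.exp 1 / (r / 2) := by
    apply Complex.norm_deriv_le_of_forall_mem_sphere_norm_le (by linarith)
    · apply DifferentiableOn.diffContOnCl
      apply hEd.mono
      rw [closure_ball z (by linarith)]
      exact closedBall_subset_ball (by linarith)
    · intro w hw
      apply hEle
      rw [mem_sphere] at hw
      rw [mem_ball, hw]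
      linarith
  have hFz : HasDerivAt F (deriv F z) z := (hFd.differentiableAt (isOpen_ball.mem_nhds hzr)).hasDerivAt
  have hEz : HasDerivAt E (Complex.exp (F z / M) * (deriv F z / M)) z := (hFz.div_const _).cexp
  have hcg : cgrad h z = deriv F z := by
    apply cgrad_re hFz
    filter_upwards [isOpen_ball.mem_nhds hzr] with w hw
    exact (hFh hw).symm
  rw [hEz.deriv, norm_mul, norm_div, Complex.norm_real, Real.norm_eq_abs, abs_of_pos hM] at hder
  have hE2 : ‖Complex.exp (F z / M)‖ = ‖E z‖ := rfl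
  rw [hE2] at hder
  rw [hcg]
  have h1 : Real.exp (-1) * (‖deriv F z‖ / M) ≤ Real.exp 1 / (r / 2) :=
    (mul_le_mul_of_nonneg_right hEge (by positivity)).trans hder
  have h2 : ‖deriv F z‖ ≤ Real.exp 1 * Real.exp 1 * 2 * M / r := by
    rw [Real.exp_neg] at h1
    have he : 0 < Real.exp 1 := Real.exp_pos 1
    field_simp at h1 ⊢
    nlinarith
  have h3 : Real.exp 1 * Real.exp 1 * 2 ≤ 20 := by
    have := Real.exp_one_lt_d9
    have he : 0 < Real.exp 1 := Real.exp_pos 1
    nlinarith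
  refine h2.trans ?_
  apply div_le_div_of_nonneg_right _ hr.le
  nlinarith

theorem removable (h : ℂ → ℝ) (a : ℂ) (ρ M : ℝ) (hρ : 0 < ρ) (hM : 0 < M)
    (hh : HarmonicOnNhd h (ball a ρ \ {a})) (hb : ∀ w ∈ ball a ρ \ {a}, |h w| ≤ M) :
    ∃ k : ℂ → ℝ, HarmonicOnNhd k (ball a ρ) ∧ EqOn k h (ball a ρ \ {a}) := by
  -- analyticity of the complex gradient on the punctured ball
  have hfd : DifferentiableOn ℂ (cgrad h) (ball a ρ \ {a}) := by
    intro z hz
    exact (HarmonicAt.differentiableAt_complex_partial (hh z hz)).differentiableWithinAt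
  -- bound
  have hfb : ∀ z ∈ ball a (ρ / 2) \ {a}, ‖(z - a) * cgrad h z‖ ≤ 20 * M := by
    intro z hz
    have hza : 0 < ‖z - a‖ := norm_pos_iff.mpr (sub_ne_zero.mpr hz.2)
    have hz2 : ‖z - a‖ < ρ / 2 := by simpa [dist_eq_norm] using hz.1
    have hsub : ball z ‖z - a‖ ⊆ ball a ρ \ {a} := by
      intro w hw
      rw [mem_ball, dist_eq_norm] at hw
      refine ⟨?_, ?_⟩
      · rw [mem_ball, dist_eq_norm]
        calc ‖w - a‖ = ‖(w - z) + (z - a)‖ := by ring_nf
          _ ≤ ‖w - z‖ + ‖z - a‖ := norm_add_le _ _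
          _ < ρ := by linarith
      · rintro rfl
        rw [norm_sub_rev] at hw
        exact lt_irrefl _ hw
    have := grad_bound h z ‖z - a‖ M hza hM (hh.mono hsub) (fun w hw => hb w (hsub hw))
    rw [norm_mul]
    calc ‖z - a‖ * ‖cgrad h z‖ ≤ ‖z - a‖ * (20 * M / ‖z - a‖) :=
          mul_le_mul_of_nonneg_left this hza.le
      _ = 20 * M := by field_simp
  set q : ℂ → ℂ := fun z => (z - a) * cgrad h z with hq
  have hqd : DifferentiableOn ℂ q (ball a ρ \ {a}) := by
    apply DifferentiableOn.mul _ hfd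
    fun_prop
  set Q : ℂ → ℂ := Function.update q a (limUnder (𝓝[≠] a) q) with hQ
  have hQ2 : DifferentiableOn ℂ Q (ball a (ρ / 2)) := by
    apply Complex.differentiableOn_update_limUnder_of_bddAbove (ball_mem_nhds a (by linarith))
    · exact hqd.mono (sdiff_subset_sdiff_left (ball_subset_ball (by linarith)))
    · refine ⟨20 * M, ?_⟩
      rintro _ ⟨z, hz, rfl⟩
      exact hfb z hz
  have hQq : ∀ z, z ≠ a → Q z = q z := fun z hz => Function.update_of_ne hz _ _
  have hQd : DifferentiableOn ℂ Q (ball a ρ) := by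
    intro z hz
    by_cases hza : z = a
    · subst hza
      exact (hQ2.differentiableAt (ball_mem_nhds _ (by linarith))).differentiableWithinAt
    · have h1 : DifferentiableAt ℂ q z := hqd.differentiableAt
        ((isOpen_ball.sdiff isClosed_singleton).mem_nhds ⟨hz, hza⟩)
      have h2 : Q =ᶠ[𝓝 z] q := by
        filter_upwards [isOpen_ne.mem_nhds hza] with w hw
        exact hQq w hw
      exact (h1.congr_of_eventuallyEq h2).differentiableWithinAt
  set lam : ℂ := Q a with hlam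
  have hQ1 : DifferentiableOn ℂ (dslope Q a) (ball a ρ) :=
    (Complex.differentiableOn_dslope (ball_mem_nhds a hρ)).mpr hQd
  obtain ⟨G, hG⟩ := hQ1.isExactOn_ball
  -- the remaining function
  have hcg : ∀ z ∈ ball a ρ \ {a}, cgrad h z = lam / (z - a) + dslope Q a z := by
    intro z hz
    have hza : z - a ≠ 0 := sub_ne_zero.mpr hz.2
    rw [dslope_of_ne _ hz.2, slope_def_field, hQq z hz.2, hq, ← hlam]
    field_simp
    ring
  have hGd : ∀ z ∈ ball a ρ, DifferentiableAt ℂ G z := fun z hz => (hG z hz).differentiableAt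
  set q0 : ℂ → ℝ := fun z => h z - (G z).re with hq0
  have hq0d : ∀ z ∈ ball a ρ \ {a}, DifferentiableAt ℝ q0 z := by
    intro z hz
    apply DifferentiableAt.sub
    · exact (hh z hz).1.differentiableAt two_ne_zero
    · exact (hasFDerivAt_re (hG z hz.1)).differentiableAt
  have hq0c : ∀ z ∈ ball a ρ \ {a}, ∀ w, (cgrad q0 z * w).re = (lam / (z - a) * w).re := by
    intro z hz w
    rw [← fderiv_eq_cgrad]
    have h1 : DifferentiableAt ℝ h z := (hh z hz).1.differentiableAt two_ne_zero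
    have h2 := hasFDerivAt_re (hG z hz.1)
    rw [hq0]
    rw [fderiv_fun_sub h1 h2.differentiableAt, h2.fderiv]
    simp only [sub_apply, fderiv_eq_cgrad, ContinuousLinearMap.comp_apply]
    rw [hcg z hz]
    simp
    ring
  -- along circles
  have hcirc : ∀ r, 0 < r → r < ρ → ∀ θ : ℝ,
      HasDerivAt (fun s : ℝ => q0 (a + r * Complex.exp (s * Complex.I))) (-lam.im) θ := by
    intro r hr0 hr1 θ
    have hc : HasDerivAt (fun s : ℝ => a + r * Complex.exp (s * Complex.I))
        (r * (Complex.exp (θ * Complex.I) * Complex.I)) θ := by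
      apply HasDerivAt.const_add
      apply HasDerivAt.const_mul
      have h1 : HasDerivAt (fun s : ℝ => (s : ℂ) * Complex.I) Complex.I θ := by
        simpa using (Complex.ofRealCLM.hasDerivAt (x := θ)).mul_const Complex.I
      exact h1.cexp
    have hmem : a + r * Complex.exp (θ * Complex.I) ∈ ball a ρ \ {a} := by
      refine ⟨?_, ?_⟩
      · rw [mem_ball, dist_eq_norm]
        simp only [add_sub_cancel_left, norm_mul, Complex.norm_real, Real.norm_eq_abs,
          Complex.norm_exp_ofReal_mul_I, mul_one, abs_of_pos hr0]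
        exact hr1
      · intro hcon
        have h2 : (r : ℂ) * Complex.exp (θ * Complex.I) = 0 := add_eq_left.mp hcon
        rw [mul_eq_zero] at h2
        rcases h2 with h2 | h2
        · exact hr0.ne' (by exact_mod_cast h2)
        · exact Complex.exp_ne_zero _ h2
    have h3 := hasDerivAt_comp_curve (h := q0)
      (c := fun s : ℝ => a + r * Complex.exp (s * Complex.I)) (t := θ) (hq0d _ hmem) hc
    rw [hq0c _ hmem] at h3
    convert h3 using 1
    rw [add_sub_cancel_left]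
    have h4 : (r : ℂ) * Complex.exp (θ * Complex.I) ≠ 0 :=
      mul_ne_zero (by exact_mod_cast hr0.ne') (Complex.exp_ne_zero _)
    have h5 : lam / (r * Complex.exp (θ * Complex.I)) * (r * (Complex.exp (θ * Complex.I) * Complex.I))
        = lam * Complex.I := by
      have h6 : (r : ℂ) * (Complex.exp (θ * Complex.I) * Complex.I) =
          (r * Complex.exp (θ * Complex.I)) * Complex.I := by ring
      rw [h6, ← mul_assoc, div_mul_cancel₀ _ h4]
    rw [h5]
    simp
  have him : lam.im = 0 := by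
    have h1 := hcirc (ρ / 2) (by linarith) (by linarith)
    have h1' : ∀ x : ℝ, HasDerivAt (fun x : ℝ =>
        q0 (a + (ρ / 2 : ℝ) * Complex.exp (x * Complex.I)) + lam.im * x) 0 x := by
      intro x
      have h5 := (h1 x).add ((hasDerivAt_id x).const_mul lam.im)
      have h6 : -lam.im + lam.im * 1 = 0 := by ring
      rw [h6] at h5
      exact h5
    have h2 : ∀ x y : ℝ, q0 (a + (ρ / 2 : ℝ) * Complex.exp (x * Complex.I)) + lam.im * x =
        q0 (a + (ρ / 2 : ℝ) * Complex.exp (y * Complex.I)) + lam.im * y := by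
      apply is_const_of_deriv_eq_zero
      · intro x
        exact (h1' x).differentiableAt
      · intro x
        exact (h1' x).deriv
    have h3 := h2 0 (2 * Real.pi)
    have h4 : Complex.exp (((0 : ℝ) : ℂ) * Complex.I) = 1 := by simp
    have h5 : Complex.exp (((2 * Real.pi : ℝ) : ℂ) * Complex.I) = 1 := by
      push_cast
      exact Complex.exp_two_pi_mul_I
    rw [h4, h5] at h3
    have h6 : lam.im * (2 * Real.pi) = 0 := by linarith
    rcases mul_eq_zero.mp h6 with h7 | h7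
    · exact h7
    · exact absurd h7 (by positivity)
  have hcirc2 : ∀ r, 0 < r → r < ρ → ∀ θ : ℝ,
      q0 (a + r * Complex.exp (θ * Complex.I)) = q0 (a + r) := by
    intro r hr0 hr1 θ
    have h1 := hcirc r hr0 hr1
    have h2 : ∀ x y : ℝ, q0 (a + r * Complex.exp (x * Complex.I)) =
        q0 (a + r * Complex.exp (y * Complex.I)) := by
      apply is_const_of_deriv_eq_zero
      · intro x
        exact (h1 x).differentiableAt
      · intro x
        rw [(h1 x).deriv, him, neg_zero]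
    have h3 := h2 θ 0
    simpa using h3
  -- along the ray
  have hray : ∀ t ∈ Ioo 0 ρ, HasDerivAt (fun s : ℝ => q0 (a + s) - lam.re * Real.log s) 0 t := by
    intro t ht
    have hc : HasDerivAt (fun s : ℝ => a + (s : ℂ)) 1 t := by
      simpa using (Complex.ofRealCLM.hasDerivAt (x := t)).const_add a
    have hmem : a + t ∈ ball a ρ \ {a} := by
      refine ⟨?_, ?_⟩
      · rw [mem_ball, dist_eq_norm]
        simp only [add_sub_cancel_left, Complex.norm_real, Real.norm_eq_abs, abs_of_pos ht.1]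
        exact ht.2
      · intro hcon
        have h2 : (t : ℂ) = 0 := add_eq_left.mp hcon
        exact ht.1.ne' (by exact_mod_cast h2)
    have h3 := hasDerivAt_comp_curve (h := q0) (c := fun s : ℝ => a + (s : ℂ)) (t := t)
      (hq0d _ hmem) hc
    rw [hq0c _ hmem] at h3
    have h4 := h3.sub ((Real.hasDerivAt_log ht.1.ne').const_mul lam.re)
    have h5 : (lam / (a + t - a) * 1).re - lam.re * t⁻¹ = 0 := by
      rw [add_sub_cancel_left, mul_one, Complex.div_ofReal_re]
      ring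
    rw [h5] at h4
    exact h4
  have hray2 : ∀ t ∈ Ioo 0 ρ, q0 (a + t) - lam.re * Real.log t =
      q0 (a + (ρ / 2 : ℝ)) - lam.re * Real.log (ρ / 2) := by
    intro t ht
    have := (convex_Ioo (0 : ℝ) ρ).is_const_of_fderivWithin_eq_zero (𝕜 := ℝ)
      (f := fun s : ℝ => q0 (a + s) - lam.re * Real.log s)
      (fun x hx => (hray x hx).differentiableAt.differentiableWithinAt) (by
        intro x hx
        rw [fderivWithin_of_isOpen isOpen_Ioo hx]
        ext
        simp [(hray x hx).hasFDerivAt.fderiv]) ht (⟨by linarith, by linarith⟩ : ρ / 2 ∈ Ioo 0 ρ)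
    simpa using this
  have hre : lam.re = 0 := by
    by_contra hne
    -- G is bounded near a
    have hGc : ContinuousAt (fun s : ℝ => (G (a + s)).re) 0 := by
      have h1 : ContinuousAt G (a + (0 : ℝ)) := by
        simpa using (hGd a (mem_ball_self hρ)).continuousAt
      exact Complex.continuous_re.continuousAt.comp
        (ContinuousAt.comp (f := fun s : ℝ => a + (s : ℂ)) h1 (by fun_prop))
    have hev1 : ∀ᶠ s : ℝ in 𝓝[>] 0, |(G (a + s)).re| < |(G a).re| + 1 := by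
      apply mem_nhdsWithin_of_mem_nhds
      have h1 : ContinuousAt (fun s : ℝ => |(G (a + s)).re|) 0 := hGc.abs
      have h2 : |(G (a + (0 : ℝ))).re| < |(G a).re| + 1 := by simp
      exact h1.eventually (gt_mem_nhds h2)
    set B : ℝ := (M + |(G a).re| + 1 + |q0 (a + (ρ / 2 : ℝ)) - lam.re * Real.log (ρ / 2)|) / |lam.re|
      with hB
    have hlog : Tendsto (fun s : ℝ => |Real.log s|) (𝓝[>] 0) atTop :=
      tendsto_abs_atBot_atTop.comp Real.tendsto_log_nhdsGT_zero
    have hev2 : ∀ᶠ s : ℝ in 𝓝[>] 0, B < |Real.log s| := hlog.eventually (eventually_gt_atTop B)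
    have hev3 : ∀ᶠ s : ℝ in 𝓝[>] 0, s ∈ Ioo 0 ρ := Ioo_mem_nhdsGT hρ
    obtain ⟨s, hs1, hs2, hs3⟩ := (hev1.and (hev2.and hev3)).exists
    have h4 := hray2 s hs3
    have hmem : a + (s : ℂ) ∈ ball a ρ \ {a} := by
      refine ⟨?_, ?_⟩
      · rw [mem_ball, dist_eq_norm]
        simp only [add_sub_cancel_left, Complex.norm_real, Real.norm_eq_abs, abs_of_pos hs3.1]
        exact hs3.2
      · intro hcon
        have h2 : (s : ℂ) = 0 := add_eq_left.mp hcon
        exact hs3.1.ne' (by exact_mod_cast h2)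
    have h5 := hb _ hmem
    have h6 : |lam.re * Real.log s| ≤ M + |(G a).re| + 1 +
        |q0 (a + (ρ / 2 : ℝ)) - lam.re * Real.log (ρ / 2)| := by
      have h7 : lam.re * Real.log s = h (a + s) - (G (a + s)).re -
          (q0 (a + (ρ / 2 : ℝ)) - lam.re * Real.log (ρ / 2)) := by
        rw [← h4, hq0]
        ring
      rw [h7]
      have h8 := abs_sub (h (a + s) - (G (a + s)).re)
        (q0 (a + (ρ / 2 : ℝ)) - lam.re * Real.log (ρ / 2))
      have h9 := abs_sub (h (a + s)) ((G (a + s)).re)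
      linarith
    rw [abs_mul] at h6
    rw [hB, div_lt_iff₀ (abs_pos.mpr hne)] at hs2
    linarith
  -- conclusion
  refine ⟨fun z => (G z).re + q0 (a + (ρ / 2 : ℝ)), ?_, ?_⟩
  · intro z hz
    have h1 : AnalyticAt ℂ G z := by
      apply DifferentiableOn.analyticAt (s := ball a ρ) _ (isOpen_ball.mem_nhds hz)
      intro w hw
      exact (hGd w hw).differentiableWithinAt
    exact h1.harmonicAt_re.add (harmonicAt_const _)
  · intro z hz
    have hz0 : 0 < ‖z - a‖ := norm_pos_iff.mpr (sub_ne_zero.mpr hz.2)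
    have hz1 : ‖z - a‖ < ρ := by simpa [dist_eq_norm] using hz.1
    have h1 := hcirc2 ‖z - a‖ hz0 hz1 (Complex.arg (z - a))
    rw [Complex.norm_mul_exp_arg_mul_I, add_sub_cancel] at h1
    have h2 := hray2 ‖z - a‖ ⟨hz0, hz1⟩
    rw [hre] at h2
    simp only [zero_mul, sub_zero] at h2
    simp only
    rw [← h2, ← h1, hq0]
    simp



/-- The Poisson kernel of the unit disc with pole `u`. -/
noncomputable def pk (u z : ℂ) : ℝ := (1 - ‖z‖ ^ 2) / ‖u - z‖ ^ 2

theorem pk_eq_re (u z : ℂ) (hu : ‖u‖ = 1) : pk u z = ((u + z) / (u - z)).re := by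
  unfold pk
  have h1 : (1 : ℝ) = ‖u‖ ^ 2 := by rw [hu]; norm_num
  rw [h1, Complex.div_re, Complex.sq_norm, Complex.sq_norm, Complex.sq_norm, Complex.normSq_apply,
    Complex.normSq_apply, Complex.normSq_apply, ← add_div]
  congr 1
  simp
  ring

theorem ne_of_norm_lt {u z : ℂ} (hu : ‖u‖ = 1) (hz : ‖z‖ < 1) : u - z ≠ 0 := by
  intro h
  have : u = z := sub_eq_zero.mp h
  rw [this] at hu
  linarith

theorem harmonicAt_pk {u z : ℂ} (hu : ‖u‖ = 1) (hz : ‖z‖ < 1) : HarmonicAt (pk u) z := by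
  have h1 : AnalyticAt ℂ (fun z => (u + z) / (u - z)) z := by
    apply AnalyticAt.div
    · fun_prop
    · fun_prop
    · exact ne_of_norm_lt hu hz
  have h2 := h1.harmonicAt_re
  have h3 : pk u = fun z => ((u + z) / (u - z)).re := by
    ext z
    exact pk_eq_re u z hu
  rw [h3]
  exact h2

theorem pk_pos {u z : ℂ} (hu : ‖u‖ = 1) (hz : ‖z‖ < 1) : 0 < pk u z := by
  unfold pk
  apply div_pos
  · nlinarith [norm_nonneg z]
  · have := norm_pos_iff.mpr (ne_of_norm_lt hu hz)
    positivity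

theorem pk_zero {u : ℂ} (hu : ‖u‖ = 1) : pk u 0 = 1 := by
  simp [pk, hu]

/-- difference of Poisson kernels for the circle of radius `r` -/
theorem kernel_diff (w z : ℂ) (r m : ℝ) (hz : ‖z‖ = r) (hm : 0 < m) (hr1 : r < 1)
    (hrm : m ≤ r - ‖w‖) :
    |poissonKernel 0 w z - poissonKernel 0 w r| ≤ 8 / m ^ 4 * ‖1 - z‖ := by
  have hw0 : 0 ≤ ‖w‖ := norm_nonneg w
  have hr0 : 0 < r := by linarith
  set A : ℝ := ‖z - w‖ with hA
  set B : ℝ := ‖(r : ℂ) - w‖ with hB
  have hnr : ‖(r : ℂ)‖ = r := by rw [Complex.norm_real, Real.norm_eq_abs, abs_of_pos hr0]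
  have hAm : m ≤ A := by
    have := norm_sub_norm_le z w
    rw [hz] at this
    linarith
  have hBm : m ≤ B := by
    have := norm_sub_norm_le (r : ℂ) w
    rw [hnr] at this
    linarith
  have hA2 : A ≤ 2 := by
    have := norm_sub_le z w
    rw [hz] at this
    linarith
  have hB2 : B ≤ 2 := by
    have := norm_sub_le (r : ℂ) w
    rw [hnr] at this
    linarith
  have hAB : |B - A| ≤ ‖(r : ℂ) - z‖ := by
    have := abs_norm_sub_norm_le ((r : ℂ) - w) (z - w)
    have h2 : (r : ℂ) - w - (z - w) = r - z := by ring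
    rw [h2] at this
    exact this
  have hrz : ‖(r : ℂ) - z‖ ≤ 2 * ‖1 - z‖ := by
    have h1 : ‖(r : ℂ) - z‖ ≤ ‖(r : ℂ) - 1‖ + ‖1 - z‖ := by
      have := norm_add_le ((r : ℂ) - 1) (1 - z)
      have h2 : (r : ℂ) - 1 + (1 - z) = r - z := by ring
      rw [h2] at this
      exact this
    have h3 : ‖(r : ℂ) - 1‖ = 1 - r := by
      have : (r : ℂ) - 1 = ((r - 1 : ℝ) : ℂ) := by push_cast; rfl
      rw [this, Complex.norm_real, Real.norm_eq_abs, abs_of_neg (by linarith)]
      ring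
    have h4 : 1 - r ≤ ‖1 - z‖ := by
      have := norm_sub_norm_le 1 z
      rw [hz, norm_one] at this
      exact this
    linarith
  have hApos : 0 < A := lt_of_lt_of_le hm hAm
  have hBpos : 0 < B := lt_of_lt_of_le hm hBm
  have hval : poissonKernel 0 w z - poissonKernel 0 w r =
      (r ^ 2 - ‖w‖ ^ 2) * ((B - A) * (B + A)) / (A ^ 2 * B ^ 2) := by
    rw [poissonKernel_def, poissonKernel_def]
    simp only [sub_zero]
    rw [hz, hnr, ← hA, ← hB]
    field_simp
    ring
  rw [hval, abs_div, abs_mul, abs_mul]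
  have h1 : |r ^ 2 - ‖w‖ ^ 2| ≤ 1 := by
    rw [abs_of_nonneg (by nlinarith)]
    nlinarith
  have h2 : |B + A| ≤ 4 := by
    rw [abs_of_pos (by linarith)]
    linarith
  have h3 : |A ^ 2 * B ^ 2| = A ^ 2 * B ^ 2 := abs_of_pos (by positivity)
  have h4 : m ^ 4 ≤ A ^ 2 * B ^ 2 := by
    have e1 : m ^ 2 ≤ A ^ 2 := by nlinarith
    have e2 : m ^ 2 ≤ B ^ 2 := by nlinarith
    calc m ^ 4 = m ^ 2 * m ^ 2 := by ring
      _ ≤ A ^ 2 * B ^ 2 := mul_le_mul e1 e2 (by positivity) (by positivity)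
  rw [h3]
  have h5 : |r ^ 2 - ‖w‖ ^ 2| * (|B - A| * |B + A|) ≤ 1 * ((2 * ‖1 - z‖) * 4) := by
    apply mul_le_mul h1 _ (by positivity) (by norm_num)
    apply mul_le_mul (hAB.trans hrz) h2 (abs_nonneg _) (by positivity)
  calc |r ^ 2 - ‖w‖ ^ 2| * (|B - A| * |B + A|) / (A ^ 2 * B ^ 2)
      ≤ (1 * ((2 * ‖1 - z‖) * 4)) / (A ^ 2 * B ^ 2) :=
        div_le_div_of_nonneg_right h5 (by positivity)
    _ ≤ (1 * ((2 * ‖1 - z‖) * 4)) / m ^ 4 := by
        apply div_le_div_of_nonneg_left (by positivity) (by positivity) h4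
    _ = 8 / m ^ 4 * ‖1 - z‖ := by ring

/-- minimality of the Poisson kernel in the disc -/
theorem minimal_disc (h : ℂ → ℝ) (hh : HarmonicOnNhd h (ball 0 1))
    (hb : ∀ z ∈ ball (0 : ℂ) 1, 0 ≤ h z ∧ h z ≤ pk 1 z) :
    ∀ w ∈ ball (0 : ℂ) 1, h w = h 0 * pk 1 w := by
  intro w hw
  have hw1 : ‖w‖ < 1 := by simpa using hw
  set m : ℝ := (1 - ‖w‖) / 2 with hm
  have hmpos : 0 < m := by rw [hm]; linarith
  -- key estimate for r close to 1
  have key : ∀ r : ℝ, (1 + ‖w‖) / 2 ≤ r → r < 1 →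
      |h w - poissonKernel 0 w r * h 0| ≤ 8 / m ^ 4 * Real.sqrt (1 - r ^ 2) := by
    intro r hr0 hr1
    have hw0 : 0 ≤ ‖w‖ := norm_nonneg w
    have hrpos : 0 < r := by linarith
    have hsub : closedBall (0 : ℂ) r ⊆ ball 0 1 := closedBall_subset_ball hr1
    have hhr : HarmonicOnNhd h (closedBall 0 r) := hh.mono hsub
    have hwr : w ∈ ball (0 : ℂ) r := by
      rw [mem_ball, dist_zero_right]; linarith
    have e1 := hhr.circleAverage_poissonKernel_smul hwr
    have e2 : Real.circleAverage h 0 r = h 0 := by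
      apply InnerProductSpace.HarmonicOnNhd.circleAverage_eq
      rw [abs_of_pos hrpos]
      exact hhr
    have hpk : HarmonicOnNhd (pk 1) (closedBall 0 r) := by
      intro z hz
      apply harmonicAt_pk (by simp)
      have := hsub hz
      simpa using this
    have e3 : Real.circleAverage (pk 1) 0 r = 1 := by
      rw [← pk_zero (u := 1) (by simp)]
      apply InnerProductSpace.HarmonicOnNhd.circleAverage_eq
      rw [abs_of_pos hrpos]
      exact hpk
    have hcont1 : ContinuousOn h (sphere 0 |r|) := by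
      rw [abs_of_pos hrpos]
      exact (hhr.continuousOn).mono sphere_subset_closedBall
    have hcont2 : ContinuousOn (pk 1) (sphere 0 |r|) := by
      rw [abs_of_pos hrpos]
      exact (hpk.continuousOn).mono sphere_subset_closedBall
    have hcont3 : ContinuousOn (poissonKernel 0 w) (sphere 0 |r|) := by
      rw [abs_of_pos hrpos]
      have : ∀ x ∈ sphere (0 : ℂ) r, ‖x - w‖ ^ 2 ≠ 0 := by
        intro x hx
        have hx1 : ‖x‖ = r := by simpa using hx
        have : x - w ≠ 0 := by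
          intro hcon
          have : x = w := sub_eq_zero.mp hcon
          rw [this] at hx1
          linarith
        have := norm_pos_iff.mpr this
        positivity
      have h2 : poissonKernel 0 w = fun z => (‖z‖ ^ 2 - ‖w‖ ^ 2) / ‖z - w‖ ^ 2 := by
        ext z
        simp [poissonKernel_def]
      rw [h2]
      apply ContinuousOn.div _ _ this
      · fun_prop
      · fun_prop
    have i1 : CircleIntegrable h 0 r := hcont1.circleIntegrable'
    have i2 : CircleIntegrable (poissonKernel 0 w • h) 0 r := (hcont3.mul hcont1).circleIntegrable'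
    have i3 : CircleIntegrable (poissonKernel 0 w r • h) 0 r :=
      (hcont1.const_smul (poissonKernel 0 w r)).circleIntegrable'
    have e4 : Real.circleAverage (poissonKernel 0 w • h - poissonKernel 0 w r • h) 0 r =
        h w - poissonKernel 0 w r * h 0 := by
      rw [Real.circleAverage_sub i2 i3, e1, Real.circleAverage_smul, e2]
      rfl
    rw [← e4]
    refine Real.abs_circleAverage_le_circleAverage_abs.trans ?_
    set s : ℝ := Real.sqrt (1 - r ^ 2) with hs
    have hs2 : s ^ 2 = 1 - r ^ 2 := Real.sq_sqrt (by nlinarith)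
    have hspos : 0 < s := Real.sqrt_pos.mpr (by nlinarith)
    -- bounding function
    have i4 : CircleIntegrable (fun z => (8 / m ^ 4 * s / 2) * (1 + pk 1 z)) 0 r := by
      apply ContinuousOn.circleIntegrable'
      exact continuousOn_const.mul (continuousOn_const.add hcont2)
    have e5 : Real.circleAverage (fun z => (8 / m ^ 4 * s / 2) * (1 + pk 1 z)) 0 r =
        8 / m ^ 4 * s := by
      have h1 : (fun z => (8 / m ^ 4 * s / 2) * (1 + pk 1 z)) =
          (8 / m ^ 4 * s / 2) • ((fun _ => (1 : ℝ)) + pk 1) := by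
        ext z
        simp
      rw [h1, Real.circleAverage_smul, Real.circleAverage_add _ hcont2.circleIntegrable',
        Real.circleAverage_const, e3]
      · rw [smul_eq_mul]; ring
      · exact (continuousOn_const).circleIntegrable'
    rw [← e5]
    apply Real.circleAverage_mono _ i4
    · intro z hz
      rw [abs_of_pos hrpos] at hz
      have hz1 : ‖z‖ = r := by simpa using hz
      have hzb : z ∈ ball (0 : ℂ) 1 := by rw [mem_ball, dist_zero_right]; linarith
      have hd := kernel_diff w z r m hz1 hmpos hr1 (by rw [hm]; linarith)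
      have hpos : 0 < ‖1 - z‖ := by
        apply norm_pos_iff.mpr
        apply ne_of_norm_lt (by simp)
        linarith
      have hval : |(poissonKernel 0 w • h - poissonKernel 0 w r • h) z| =
          |poissonKernel 0 w z - poissonKernel 0 w r| * h z := by
        have : (poissonKernel 0 w • h - poissonKernel 0 w r • h) z =
          (poissonKernel 0 w z - poissonKernel 0 w r) * h z := by
          simp
          ring
        rw [this, abs_mul, abs_of_nonneg (hb z hzb).1]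
      change |(poissonKernel 0 w • h - poissonKernel 0 w r • h) z| ≤ _
      rw [hval]
      have h1 : |poissonKernel 0 w z - poissonKernel 0 w r| * h z ≤
          (8 / m ^ 4 * ‖1 - z‖) * pk 1 z :=
        mul_le_mul hd (hb z hzb).2 (hb z hzb).1 (by positivity)
      refine h1.trans ?_
      have hp : pk 1 z = s ^ 2 / ‖1 - z‖ ^ 2 := by
        rw [pk, hz1, hs2]
      rw [hp]
      have h2 : ‖1 - z‖ * (s ^ 2 / ‖1 - z‖ ^ 2) ≤ s / 2 * (1 + s ^ 2 / ‖1 - z‖ ^ 2) := by
        set x := s / ‖1 - z‖ with hx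
        have e1 : ‖1 - z‖ * (s ^ 2 / ‖1 - z‖ ^ 2) = s * x := by
          rw [hx]; field_simp
        have e2 : s ^ 2 / ‖1 - z‖ ^ 2 = x ^ 2 := by
          rw [hx]; field_simp
        rw [e1, e2]
        nlinarith [sq_nonneg (1 - x)]
      have h3 : 0 < 8 / m ^ 4 := by positivity
      calc 8 / m ^ 4 * ‖1 - z‖ * (s ^ 2 / ‖1 - z‖ ^ 2)
          = 8 / m ^ 4 * (‖1 - z‖ * (s ^ 2 / ‖1 - z‖ ^ 2)) := by ring
        _ ≤ 8 / m ^ 4 * (s / 2 * (1 + s ^ 2 / ‖1 - z‖ ^ 2)) := mul_le_mul_of_nonneg_left h2 h3.le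
        _ = _ := by ring
    · exact ((i2.sub i3).abs)
  -- limit r → 1
  have hlim1 : Tendsto (fun r : ℝ => |h w - poissonKernel 0 w r * h 0|) (𝓝[<] 1)
      (𝓝 |h w - pk 1 w * h 0|) := by
    have : ContinuousAt (fun r : ℝ => |h w - poissonKernel 0 w r * h 0|) 1 := by
      have hne : ‖((1 : ℝ) : ℂ) - w‖ ^ 2 ≠ 0 := by
        have := norm_pos_iff.mpr (ne_of_norm_lt (u := 1) (by simp) hw1)
        push_cast
        positivity
      have h2 : (fun r : ℝ => poissonKernel 0 w r) =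
          fun r : ℝ => (‖(r : ℂ)‖ ^ 2 - ‖w‖ ^ 2) / ‖(r : ℂ) - w‖ ^ 2 := by
        ext r
        simp [poissonKernel_def]
      have h3 : ContinuousAt (fun r : ℝ => poissonKernel 0 w r) 1 := by
        rw [h2]
        exact ContinuousAt.div₀ (f := fun r : ℝ => ‖(r : ℂ)‖ ^ 2 - ‖w‖ ^ 2)
          (g := fun r : ℝ => ‖(r : ℂ) - w‖ ^ 2) (by fun_prop) (by fun_prop) hne
      exact (continuousAt_const.sub (h3.mul continuousAt_const)).abs
    have h4 := this.tendsto
    have h5 : poissonKernel 0 w ((1 : ℝ) : ℂ) = pk 1 w := by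
      rw [poissonKernel_def, pk]
      simp
    rw [h5] at h4
    exact h4.mono_left nhdsWithin_le_nhds
  have hlim2 : Tendsto (fun r : ℝ => 8 / m ^ 4 * Real.sqrt (1 - r ^ 2)) (𝓝[<] 1) (𝓝 0) := by
    have : ContinuousAt (fun r : ℝ => 8 / m ^ 4 * Real.sqrt (1 - r ^ 2)) 1 := by fun_prop
    have h4 := this.tendsto
    simp only [one_pow, sub_self, Real.sqrt_zero, mul_zero] at h4
    exact h4.mono_left nhdsWithin_le_nhds
  have hle : |h w - pk 1 w * h 0| ≤ 0 := by
    apply le_of_tendsto_of_tendsto hlim1 hlim2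
    have h1 : ∀ᶠ r : ℝ in 𝓝[<] 1, (1 + ‖w‖) / 2 < r :=
      mem_nhdsWithin_of_mem_nhds (lt_mem_nhds (by linarith))
    filter_upwards [h1, self_mem_nhdsWithin] with r h2 h3
    exact key r h2.le h3
  have := abs_nonpos_iff.mp hle
  linarith

/-- strong minimum principle -/
theorem locally_const_of_min (u : ℂ → ℝ) (p : ℂ) (hu : HarmonicAt u p)
    (hmin : ∀ᶠ z in 𝓝 p, u p ≤ u z) : ∀ᶠ z in 𝓝 p, u z = u p := by
  obtain ⟨r, hr, hball⟩ := Metric.eventually_nhds_iff_ball.mp hu.eventually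
  obtain ⟨F, hF, hFu⟩ := InnerProductSpace.HarmonicOnNhd.exists_analyticOnNhd_ball_re_eq
    (z := p) (R := r) (f := u) hball
  have hd : ∀ᶠ z in 𝓝 p, DifferentiableAt ℂ (fun z => Complex.exp (-F z)) z := by
    filter_upwards [ball_mem_nhds p hr] with z hz
    exact (hF z hz).differentiableAt.neg.cexp
  have hn : ∀ z ∈ ball p r, ‖Complex.exp (-F z)‖ = Real.exp (-u z) := by
    intro z hz
    rw [Complex.norm_exp, Complex.neg_re]
    have := hFu hz
    simp only at this
    rw [this]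
  have hmax : IsLocalMax (norm ∘ fun z => Complex.exp (-F z)) p := by
    filter_upwards [hmin, ball_mem_nhds p hr] with z hz hzb
    simp only [Function.comp_apply]
    rw [hn z hzb, hn p (mem_ball_self hr)]
    apply Real.exp_le_exp.mpr
    linarith
  have := Complex.norm_eventually_eq_of_isLocalMax hd hmax
  filter_upwards [this, ball_mem_nhds p hr] with z hz hzb
  rw [hn z hzb, hn p (mem_ball_self hr)] at hz
  have := Real.exp_injective hz
  linarith

/-- global minimum principle on the punctured disc -/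
theorem min_principle (w : ℂ → ℝ) (hw : HarmonicOnNhd w DD)
    (hb : ∀ ε > 0, ∃ r < 1, ∃ δ > 0, ∀ z ∈ DD, (r < ‖z‖ ∨ ‖z - 1 / 2‖ < δ) →
      -ε ≤ w z + ε * Real.log (2 / ‖z - 1 / 2‖)) : ∀ z ∈ DD, 0 ≤ w z := by
  intro z₁ hz₁
  by_contra hneg
  push Not at hneg
  -- choose ε
  have hz1 : 0 < ‖z₁ - 1 / 2‖ := norm_pos_iff.mpr (sub_ne_zero.mpr (mem_DD.mp hz₁).2)
  set L : ℝ := Real.log (2 / ‖z₁ - 1 / 2‖) with hL
  have hLpos : 0 ≤ L := by
    apply Real.log_nonneg
    rw [le_div_iff₀ hz1]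
    have h1 : ‖z₁ - 1 / 2‖ ≤ ‖z₁‖ + ‖(1 / 2 : ℂ)‖ := norm_sub_le _ _
    have h2 : ‖(1 / 2 : ℂ)‖ = 1 / 2 := by norm_num
    rw [h2] at h1
    linarith [(mem_DD.mp hz₁).1]
  set ε : ℝ := -w z₁ / (2 * (L + 1)) with hε
  have hεpos : 0 < ε := by
    rw [hε]
    apply div_pos
    · linarith
    · linarith
  have hε2 : w z₁ + ε * L < -ε := by
    have : ε * (2 * (L + 1)) = -w z₁ := by
      rw [hε]
      field_simp
    nlinarith
  obtain ⟨r, hr, δ, hδ, hout⟩ := hb ε hεpos
  set u : ℂ → ℝ := fun z => w z + ε * Real.log (2 / ‖z - 1 / 2‖) with hu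
  have huh : HarmonicOnNhd u DD := by
    intro z hz
    have hz2 : z - 1 / 2 ≠ 0 := sub_ne_zero.mpr (mem_DD.mp hz).2
    have h1 : HarmonicAt (fun z : ℂ => Real.log ‖(2 : ℂ) / (z - 1 / 2)‖) z := by
      apply AnalyticAt.harmonicAt_log_norm
      · apply AnalyticAt.div
        · fun_prop
        · fun_prop
        · exact hz2
      · apply div_ne_zero two_ne_zero hz2
    have h2 : HarmonicAt (ε • fun z : ℂ => Real.log ‖(2 : ℂ) / (z - 1 / 2)‖) z := h1.const_smul
    have h3 := (hw z hz).add h2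
    convert h3 using 1
    ext z
    simp [hu]
  set C : Set ℂ := {z : ℂ | ‖z‖ ≤ r ∧ δ ≤ ‖z - 1 / 2‖} with hC
  have hCc : IsCompact C := by
    apply Metric.isCompact_of_isClosed_isBounded
    · apply IsClosed.inter
      · exact isClosed_le continuous_norm continuous_const
      · exact isClosed_le continuous_const (by fun_prop : Continuous fun z : ℂ => ‖z - 1 / 2‖)
    · apply (isBounded_closedBall (x := (0 : ℂ)) (r := r)).subset
      intro z hz
      simpa using hz.1
  have hCD : C ⊆ DD := by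
    intro z hz
    rw [mem_DD]
    refine ⟨lt_of_le_of_lt hz.1 hr, ?_⟩
    rintro rfl
    have := hz.2
    simp at this
    linarith
  have hoC : ∀ z ∈ DD, z ∉ C → -ε ≤ u z := by
    intro z hz hzC
    apply hout z hz
    by_contra hcon
    push Not at hcon
    exact hzC hcon
  have hz1C : z₁ ∈ C := by
    by_contra hcon
    have := hoC z₁ hz₁ hcon
    rw [hu] at this
    simp only at this
    linarith
  obtain ⟨p, hpC, hpmin⟩ := hCc.exists_isMinOn ⟨z₁, hz1C⟩ (huh.continuousOn.mono hCD)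
  have hpD := hCD hpC
  have hup : u p < -ε := by
    have := hpmin hz1C
    simp only [mem_ofPred_eq] at this
    have h2 : u z₁ < -ε := by rw [hu]; exact hε2
    linarith
  have hglob : ∀ z ∈ DD, u p ≤ u z := by
    intro z hz
    by_cases hzC : z ∈ C
    · exact hpmin hzC
    · linarith [hoC z hz hzC]
  -- the set where the minimum is attained
  have hall : DD ⊆ {z | u z = u p} := by
    have h1 : IsOpen (DD ∩ {z | u z = u p}) := by
      rw [isOpen_iff_mem_nhds]
      rintro z ⟨hz, hzp⟩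
      have hzp' : u z = u p := hzp
      have h2 : ∀ᶠ y in 𝓝 z, u z ≤ u y := by
        filter_upwards [isOpen_DD.mem_nhds hz] with y hy
        rw [hzp']
        exact hglob y hy
      filter_upwards [locally_const_of_min u z (huh z hz) h2, isOpen_DD.mem_nhds hz] with y hy hyD
      exact ⟨hyD, hy.trans hzp'⟩
    have h3 : IsOpen (DD ∩ {z | u z ≠ u p}) :=
      huh.continuousOn.isOpen_inter_preimage isOpen_DD isOpen_ne
    intro z hz
    by_contra hcon
    obtain ⟨y, hy1, hy2, hy3⟩ := isPreconnected_DD _ _ h1 h3 (by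
      intro y hy
      by_cases hyy : u y = u p
      · exact Or.inl ⟨hy, hyy⟩
      · exact Or.inr ⟨hy, hyy⟩) ⟨p, hpD, hpD, rfl⟩ ⟨z, hz, hz, hcon⟩
    exact hy3.2 hy2.2
  -- a point outside C
  have hout2 : ∃ y ∈ DD, y ∉ C := by
    have hmax : max (max r (3 / 4)) 0 < 1 := by
      simp only [max_lt_iff]
      norm_num
      exact hr
    obtain ⟨s, hs1, hs2⟩ := exists_between hmax
    simp only [max_lt_iff] at hs1
    refine ⟨(s : ℂ), ?_, ?_⟩
    · rw [mem_DD]
      constructor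
      · rw [Complex.norm_real, Real.norm_eq_abs, abs_of_pos hs1.2]
        exact hs2
      · intro hcon
        have : s = 1 / 2 := by
          have h1 : ((s : ℝ) : ℂ) = ((1 / 2 : ℝ) : ℂ) := by
            rw [hcon]; push_cast; rfl
          exact_mod_cast h1
        linarith [hs1.1.2]
    · intro hcon
      have := hcon.1
      rw [Complex.norm_real, Real.norm_eq_abs, abs_of_pos hs1.2] at this
      linarith [hs1.1.1]
  obtain ⟨y, hyD, hyC⟩ := hout2
  have h1 := hall hyD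
  have h2 := hoC y hyD hyC
  simp only [mem_ofPred_eq] at h1
  linarith

/-- The Green function of the disc. -/
noncomputable def gr (y z : ℂ) : ℝ := Real.log (‖1 - (starRingEnd ℂ) y * z‖ / ‖z - y‖)

theorem norm_ident (y z : ℂ) :
    ‖1 - (starRingEnd ℂ) y * z‖ ^ 2 = ‖z - y‖ ^ 2 + (1 - ‖y‖ ^ 2) * (1 - ‖z‖ ^ 2) := by
  rw [Complex.sq_norm, Complex.sq_norm, Complex.sq_norm, Complex.sq_norm, Complex.normSq_apply,
    Complex.normSq_apply, Complex.normSq_apply, Complex.normSq_apply]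
  simp
  ring

theorem one_sub_ne {y z : ℂ} (hy : ‖y‖ < 1) (hz : ‖z‖ < 1) : 1 - (starRingEnd ℂ) y * z ≠ 0 := by
  intro h
  have h1 : (starRingEnd ℂ) y * z = 1 := (sub_eq_zero.mp h).symm
  have h2 : ‖(starRingEnd ℂ) y * z‖ = 1 := by rw [h1]; simp
  rw [norm_mul, RCLike.norm_conj] at h2
  nlinarith [norm_nonneg y, norm_nonneg z]

theorem gr_eq {y z : ℂ} (hy : ‖y‖ < 1) (hz : ‖z‖ < 1) (hne : z ≠ y) :
    gr y z = Real.log ‖1 - (starRingEnd ℂ) y * z‖ - Real.log ‖z - y‖ := by
  unfold gr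
  rw [Real.log_div]
  · exact (norm_pos_iff.mpr (one_sub_ne hy hz)).ne'
  · exact (norm_pos_iff.mpr (sub_ne_zero.mpr hne)).ne'

theorem harmonicAt_k {y z : ℂ} (hy : ‖y‖ < 1) (hz : ‖z‖ < 1) :
    HarmonicAt (fun z => Real.log ‖1 - (starRingEnd ℂ) y * z‖) z := by
  apply AnalyticAt.harmonicAt_log_norm
  · fun_prop
  · exact one_sub_ne hy hz

theorem harmonicAt_gr {y z : ℂ} (hy : ‖y‖ < 1) (hz : ‖z‖ < 1) (hne : z ≠ y) :
    HarmonicAt (gr y) z := by
  have h2 : HarmonicAt (fun z => Real.log ‖z - y‖) z := by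
    apply AnalyticAt.harmonicAt_log_norm
    · fun_prop
    · exact sub_ne_zero.mpr hne
  have h3 := (harmonicAt_k hy hz).sub h2
  rw [harmonicAt_congr_nhds (f₂ := (fun z => Real.log ‖1 - (starRingEnd ℂ) y * z‖) -
    fun z => Real.log ‖z - y‖)]
  · exact h3
  · have hzb : z ∈ ball (0 : ℂ) 1 := by simpa using hz
    filter_upwards [isOpen_ball.mem_nhds hzb, isOpen_ne.mem_nhds hne] with x hx1 hx2
    have hx3 : ‖x‖ < 1 := by simpa using hx1
    rw [gr_eq hy hx3 hx2]
    rfl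

/-- `gr` in the form `(1/2) log (1 + P)` -/
theorem gr_half_log {y z : ℂ} (hne : z ≠ y) :
    gr y z = Real.log (1 + (1 - ‖y‖ ^ 2) * (1 - ‖z‖ ^ 2) / ‖z - y‖ ^ 2) / 2 := by
  have hB : 0 < ‖z - y‖ := norm_pos_iff.mpr (sub_ne_zero.mpr hne)
  have h1 : 1 + (1 - ‖y‖ ^ 2) * (1 - ‖z‖ ^ 2) / ‖z - y‖ ^ 2 =
      (‖1 - (starRingEnd ℂ) y * z‖ / ‖z - y‖) ^ 2 := by
    rw [div_pow, norm_ident]
    field_simp
  rw [h1, Real.log_pow, gr]
  push_cast
  ring

theorem gr_pos {y z : ℂ} (hy : ‖y‖ < 1) (hz : ‖z‖ < 1) (hne : z ≠ y) : 0 < gr y z := by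
  have hB : 0 < ‖z - y‖ := norm_pos_iff.mpr (sub_ne_zero.mpr hne)
  rw [gr_half_log hne]
  have h1 : 0 < 1 - ‖y‖ ^ 2 := by nlinarith [norm_nonneg y]
  have h2 : 0 < 1 - ‖z‖ ^ 2 := by nlinarith [norm_nonneg z]
  have h3 : 0 < (1 - ‖y‖ ^ 2) * (1 - ‖z‖ ^ 2) / ‖z - y‖ ^ 2 := by positivity
  have := Real.log_pos (show 1 < 1 + (1 - ‖y‖ ^ 2) * (1 - ‖z‖ ^ 2) / ‖z - y‖ ^ 2 by linarith)
  linarith

theorem gr_le {y z : ℂ} (hy : ‖y‖ < 1) (hz : ‖z‖ < 1) (hzy : (1 + ‖y‖) / 2 ≤ ‖z‖) :
    gr y z ≤ (1 - ‖z‖) / ((1 - ‖y‖) / 2) ^ 2 := by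
  have hne : z ≠ y := by
    rintro rfl
    linarith
  have hB : 0 < ‖z - y‖ := norm_pos_iff.mpr (sub_ne_zero.mpr hne)
  rw [gr_half_log hne]
  have h1 : 0 < 1 - ‖y‖ ^ 2 := by nlinarith [norm_nonneg y]
  have h2 : 0 < 1 - ‖z‖ ^ 2 := by nlinarith [norm_nonneg z]
  have h3 : 0 < (1 - ‖y‖ ^ 2) * (1 - ‖z‖ ^ 2) / ‖z - y‖ ^ 2 := by positivity
  have h4 := Real.log_le_sub_one_of_pos
    (show 0 < 1 + (1 - ‖y‖ ^ 2) * (1 - ‖z‖ ^ 2) / ‖z - y‖ ^ 2 by linarith)
  have h5 : (1 - ‖y‖) / 2 ≤ ‖z - y‖ := by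
    have := norm_sub_norm_le z y
    linarith
  have h6 : (1 - ‖y‖ ^ 2) * (1 - ‖z‖ ^ 2) / ‖z - y‖ ^ 2 ≤
      (2 * (1 - ‖z‖)) / ((1 - ‖y‖) / 2) ^ 2 := by
    have h7 : 0 < (1 - ‖y‖) / 2 := by linarith
    apply div_le_div₀
    · nlinarith
    · nlinarith [norm_nonneg y, norm_nonneg z]
    · positivity
    · nlinarith
  have h8 : (2 * (1 - ‖z‖)) / ((1 - ‖y‖) / 2) ^ 2 = 2 * ((1 - ‖z‖) / ((1 - ‖y‖) / 2) ^ 2) := by ring
  rw [h8] at h6
  linarith

theorem hasLogPole_gr {y : ℂ} (hy : ‖y‖ < 1) : HasLogPole y (gr y) := by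
  refine ⟨fun z => Real.log ‖1 - (starRingEnd ℂ) y * z‖, harmonicAt_k hy hy, ?_⟩
  have hyb : y ∈ ball (0 : ℂ) 1 := by simpa using hy
  filter_upwards [mem_nhdsWithin_of_mem_nhds (isOpen_ball.mem_nhds hyb), self_mem_nhdsWithin]
    with z hz1 hz2
  have hz3 : ‖z‖ < 1 := by simpa using hz1
  exact gr_eq hy hz3 hz2

theorem isGreenFn_gr {y : ℂ} (hyD : y ∈ DD) : IsGreenFn DD y (gr y) := by
  have hy : ‖y‖ < 1 := (mem_DD.mp hyD).1
  have hya : y ≠ 1 / 2 := (mem_DD.mp hyD).2
  refine ⟨⟨?_, ?_⟩, hasLogPole_gr hy, ?_⟩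
  · intro z hz
    exact harmonicAt_gr hy (mem_DD.mp hz.1).1 hz.2
  · intro z hz
    exact gr_pos hy (mem_DD.mp hz.1).1 hz.2
  · intro v hv hvp
    obtain ⟨kv, hkv, hkve⟩ := hvp
    obtain ⟨k, hk, hke⟩ := hasLogPole_gr hy
    set w : ℂ → ℝ := fun z => if z = y then kv y - k y else v z - gr y z with hw
    have hwne : ∀ z, z ≠ y → w z = v z - gr y z := fun z hz => if_neg hz
    have hwh : HarmonicOnNhd w DD := by
      intro z hz
      by_cases hzy : z = y
      · subst hzy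
        rw [harmonicAt_congr_nhds (f₂ := kv - k)]
        · exact hkv.sub hk
        · have h1 : ∀ᶠ x in 𝓝[≠] z, w x = (kv - k) x := by
            filter_upwards [hkve, hke, self_mem_nhdsWithin] with x h1 h2 h3
            rw [hwne x h3, h1, h2]
            simp
          rw [eventually_nhdsWithin_iff] at h1
          filter_upwards [h1] with x hx
          by_cases hxz : x = z
          · subst hxz
            simp [hw]
          · exact hx hxz
      · rw [harmonicAt_congr_nhds (f₂ := v - gr y)]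
        · exact (hv.1 z ⟨hz, hzy⟩).sub (harmonicAt_gr hy (mem_DD.mp hz).1 hzy)
        · filter_upwards [isOpen_ne.mem_nhds hzy] with x hx
          rw [hwne x hx]
          rfl
    have hmain := min_principle w hwh (by
      intro ε hε
      -- outer radius
      set m : ℝ := (1 - ‖y‖) / 2 with hm
      have hmpos : 0 < m := by rw [hm]; linarith
      -- bound near 1/2
      have hcont : ContinuousAt (gr y) (1 / 2) :=
        (harmonicAt_gr hy (by norm_num) hya.symm).1.continuousAt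
      have hev := hcont.eventually (gt_mem_nhds (show gr y (1 / 2) < |gr y (1 / 2)| + 1 by
        linarith [le_abs_self (gr y (1 / 2))]))
      obtain ⟨δ₁, hδ₁, hball⟩ := Metric.eventually_nhds_iff.mp hev
      set B : ℝ := |gr y (1 / 2)| + 1 with hB
      have hBpos : 0 < B := by positivity
      have hya2 : 0 < ‖y - 1 / 2‖ := norm_pos_iff.mpr (sub_ne_zero.mpr hya)
      refine ⟨max ((1 + ‖y‖) / 2) (1 - ε * m ^ 2), ?_,
        min (min δ₁ (2 * Real.exp (-(B / ε)))) ‖y - 1 / 2‖, ?_, ?_⟩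
      · apply max_lt
        · linarith
        · have : 0 < ε * m ^ 2 := by positivity
          linarith
      · apply lt_min (lt_min hδ₁ (by positivity)) hya2
      · intro z hz hcase
        have hz1 := (mem_DD.mp hz).1
        have hza := (mem_DD.mp hz).2
        have hza2 : 0 < ‖z - 1 / 2‖ := norm_pos_iff.mpr (sub_ne_zero.mpr hza)
        have hLpos : 0 ≤ Real.log (2 / ‖z - 1 / 2‖) := by
          apply Real.log_nonneg
          rw [le_div_iff₀ hza2]
          have h1 : ‖z - 1 / 2‖ ≤ ‖z‖ + ‖(1 / 2 : ℂ)‖ := norm_sub_le _ _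
          have h2 : ‖(1 / 2 : ℂ)‖ = 1 / 2 := by norm_num
          rw [h2] at h1
          linarith
        rcases hcase with hc | hc
        · have hc1 : (1 + ‖y‖) / 2 < ‖z‖ := lt_of_le_of_lt (le_max_left _ _) hc
          have hc2 : 1 - ε * m ^ 2 < ‖z‖ := lt_of_le_of_lt (le_max_right _ _) hc
          have hzy : z ≠ y := by
            rintro rfl
            linarith
          have h1 := gr_le hy hz1 hc1.le
          have h2 : (1 - ‖z‖) / ((1 - ‖y‖) / 2) ^ 2 ≤ ε := by
            rw [div_le_iff₀ (by positivity), ← hm]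
            linarith
          have h3 := hv.2 z ⟨hz, hzy⟩
          rw [hwne z hzy]
          have h4 : 0 ≤ ε * Real.log (2 / ‖z - 1 / 2‖) := by positivity
          linarith
        · have hc1 : ‖z - 1 / 2‖ < δ₁ := lt_of_lt_of_le hc ((min_le_left _ _).trans (min_le_left _ _))
          have hc2 : ‖z - 1 / 2‖ < 2 * Real.exp (-(B / ε)) :=
            lt_of_lt_of_le hc ((min_le_left _ _).trans (min_le_right _ _))
          have hc3 : ‖z - 1 / 2‖ < ‖y - 1 / 2‖ := lt_of_lt_of_le hc (min_le_right _ _)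
          have hzy : z ≠ y := by
            rintro rfl
            linarith
          have h1 : gr y z < B := hball (by rw [dist_eq_norm]; exact hc1)
          have h3 := hv.2 z ⟨hz, hzy⟩
          rw [hwne z hzy]
          have h4 : B / ε ≤ Real.log (2 / ‖z - 1 / 2‖) := by
            rw [Real.le_log_iff_exp_le (by positivity), le_div_iff₀ hza2]
            have h5 : Real.exp (B / ε) * (2 * Real.exp (-(B / ε))) = 2 := by
              rw [Real.exp_neg]
              field_simp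
            have h6 : Real.exp (B / ε) * ‖z - 1 / 2‖ ≤ Real.exp (B / ε) * (2 * Real.exp (-(B / ε))) :=
              mul_le_mul_of_nonneg_left hc2.le (Real.exp_pos _).le
            linarith
          have h7 : B ≤ ε * Real.log (2 / ‖z - 1 / 2‖) := by
            rw [div_le_iff₀ hε] at h4
            linarith
          linarith)
    intro z hz
    have h1 := hmain z hz.1
    rw [hwne z hz.2] at h1
    linarith

theorem tendsto_log_ratio {x : ℕ → ℝ} (hx : Tendsto x atTop (𝓝 0)) (hx0 : ∀ n, x n ≠ 0) :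
    Tendsto (fun n => Real.log (1 + x n) / x n) atTop (𝓝 1) := by
  have h1 := Real.hasDerivAt_log (one_ne_zero)
  rw [hasDerivAt_iff_tendsto_slope_zero] at h1
  simp only [Real.log_one, sub_zero, smul_eq_mul, inv_one] at h1
  have h2 : Tendsto x atTop (𝓝[≠] 0) :=
    tendsto_nhdsWithin_iff.mpr ⟨hx, Eventually.of_forall hx0⟩
  have h3 := h1.comp h2
  refine h3.congr ?_
  intro n
  simp only [Function.comp_apply]
  rw [div_eq_inv_mul]

theorem norm_ofReal_pos {x : ℝ} (hx : 0 < x) : ‖(x : ℂ)‖ = x := by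
  rw [Complex.norm_real, Real.norm_eq_abs, abs_of_pos hx]

/-- the poles tending to 1 -/
noncomputable def yy (n : ℕ) : ℝ := 1 - 1 / (n + 3)

theorem yy_pos (n : ℕ) : 0 < yy n := by
  unfold yy
  have : (1 : ℝ) / (n + 3) < 1 := by
    rw [div_lt_one (by positivity)]
    have : (0 : ℝ) ≤ n := Nat.cast_nonneg n
    linarith
  linarith

theorem yy_lt (n : ℕ) : yy n < 1 := by
  unfold yy
  have : (0 : ℝ) < 1 / (n + 3) := by positivity
  linarith

theorem yy_gt (n : ℕ) : 1 / 2 < yy n := by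
  unfold yy
  have : (1 : ℝ) / (n + 3) < 1 / 2 := by
    rw [div_lt_div_iff₀ (by positivity) (by norm_num)]
    have : (0 : ℝ) ≤ n := Nat.cast_nonneg n
    linarith
  linarith

theorem tendsto_yy : Tendsto yy atTop (𝓝 1) := by
  have h1 : Tendsto (fun n : ℕ => 1 / ((n : ℝ) + 3)) atTop (𝓝 0) := by
    have := tendsto_const_div_atTop_nhds_zero_nat (1 : ℝ)
    have h2 := (tendsto_add_atTop_iff_nat 3).mpr this
    refine h2.congr ?_
    intro n
    push_cast
    rfl
  have h2 := (tendsto_const_nhds (x := (1 : ℝ)) (f := atTop (α := ℕ))).sub h1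
  rw [sub_zero] at h2
  exact h2

theorem tendsto_martin (z : ℂ) (hz : ‖z‖ < 1) :
    Tendsto (fun n => gr (yy n) z / gr (yy n) 0) atTop (𝓝 (pk 1 z)) := by
  -- eventually z ≠ yy n
  have hne : ∀ᶠ n in atTop, z ≠ (yy n : ℂ) := by
    have h1 : ∀ᶠ n in atTop, ‖z‖ < yy n := tendsto_yy.eventually (lt_mem_nhds hz)
    filter_upwards [h1] with n hn
    rintro rfl
    rw [norm_ofReal_pos (yy_pos n)] at hn
    exact lt_irrefl _ hn
  have hz2 : 0 < 1 - ‖z‖ ^ 2 := by nlinarith [norm_nonneg z]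
  -- t n = 1 - yy n ^ 2
  set t : ℕ → ℝ := fun n => 1 - yy n ^ 2 with ht
  have htpos : ∀ n, 0 < t n := by
    intro n
    have := yy_pos n
    have := yy_lt n
    simp only [ht]
    nlinarith
  have htlim : Tendsto t atTop (𝓝 0) := by
    have := (tendsto_const_nhds (x := (1 : ℝ)) (f := atTop (α := ℕ))).sub (tendsto_yy.pow 2)
    simpa using this
  have hyc : Tendsto (fun n => ((yy n : ℝ) : ℂ)) atTop (𝓝 1) := by
    have := (Complex.continuous_ofReal.tendsto 1).comp tendsto_yy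
    rw [Complex.ofReal_one] at this
    exact this
  set α : ℕ → ℝ := fun n => (1 - ‖z‖ ^ 2) / ‖z - yy n‖ ^ 2 with hα
  set β : ℕ → ℝ := fun n => 1 / yy n ^ 2 with hβ
  have hz1 : ‖z - 1‖ ^ 2 ≠ 0 := by
    have : z - 1 ≠ 0 := by
      intro h
      have : z = 1 := sub_eq_zero.mp h
      rw [this] at hz
      simp at hz
    have := norm_pos_iff.mpr this
    positivity
  have hαlim : Tendsto α atTop (𝓝 (pk 1 z)) := by
    have h1 : Tendsto (fun n => ‖z - yy n‖ ^ 2) atTop (𝓝 (‖z - 1‖ ^ 2)) :=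
      ((tendsto_const_nhds.sub hyc).norm).pow 2
    have h2 := (tendsto_const_nhds (x := 1 - ‖z‖ ^ 2) (f := atTop (α := ℕ))).div h1 hz1
    have h3 : pk 1 z = (1 - ‖z‖ ^ 2) / ‖z - 1‖ ^ 2 := by
      rw [pk, norm_sub_rev]
    rw [h3]
    exact h2
  have hβlim : Tendsto β atTop (𝓝 1) := by
    have h1 := (tendsto_const_nhds (x := (1 : ℝ)) (f := atTop (α := ℕ))).div (tendsto_yy.pow 2)
      (by norm_num)
    rw [one_pow, div_one] at h1
    exact h1
  have hβpos : ∀ n, 0 < β n := by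
    intro n
    have := yy_pos n
    simp only [hβ]
    positivity
  have hα0 : ∀ᶠ n in atTop, α n ≠ 0 := by
    filter_upwards [hne] with n hn
    have : 0 < ‖z - yy n‖ := norm_pos_iff.mpr (sub_ne_zero.mpr hn)
    simp only [hα]
    positivity
  -- modified sequence to have everything nonzero
  set x : ℕ → ℝ := fun n => if α n = 0 then t n else t n * α n with hx
  have hx0 : ∀ n, x n ≠ 0 := by
    intro n
    simp only [hx]
    split_ifs with h
    · exact (htpos n).ne'
    · exact mul_ne_zero (htpos n).ne' h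
  have hxe : ∀ᶠ n in atTop, x n = t n * α n := by
    filter_upwards [hα0] with n hn
    simp only [hx]
    rw [if_neg hn]
  have hxlim : Tendsto x atTop (𝓝 0) := by
    have h1 := htlim.mul hαlim
    rw [zero_mul] at h1
    exact h1.congr' (hxe.mono (fun n hn => hn.symm))
  have h1 := tendsto_log_ratio hxlim hx0
  have hx'0 : ∀ n, t n * β n ≠ 0 := fun n => mul_ne_zero (htpos n).ne' (hβpos n).ne'
  have hx'lim : Tendsto (fun n => t n * β n) atTop (𝓝 0) := by
    have h1 := htlim.mul hβlim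
    rw [zero_mul] at h1
    exact h1
  have h2 := tendsto_log_ratio hx'lim hx'0
  have h3 := (h1.div h2 one_ne_zero).mul (hαlim.div hβlim one_ne_zero)
  rw [div_one, div_one, one_mul] at h3
  refine h3.congr' ?_
  filter_upwards [hα0, hxe, hne] with n hn1 hn2 hn3
  have hypos := yy_pos n
  have h4 : gr (yy n) z = Real.log (1 + t n * α n) / 2 := by
    rw [gr_half_log hn3, norm_ofReal_pos hypos]
    simp only [ht, hα]
    rw [mul_div_assoc]
  have h5 : gr (yy n) 0 = Real.log (1 + t n * β n) / 2 := by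
    have h6 : (0 : ℂ) ≠ (yy n : ℂ) := by
      intro h
      have : (0 : ℝ) = yy n := by exact_mod_cast h
      linarith
    rw [gr_half_log h6, norm_ofReal_pos hypos]
    simp only [ht, hβ]
    rw [zero_sub, norm_neg, norm_ofReal_pos hypos]
    simp [div_eq_mul_inv]
  simp only [Pi.div_apply]
  rw [h4, h5, hn2]
  have h7 : Real.log (1 + t n * β n) ≠ 0 := by
    have : 0 < t n * β n := mul_pos (htpos n) (hβpos n)
    exact (Real.log_pos (by linarith)).ne'
  have h8 := (htpos n).ne'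
  have h9 := (hβpos n).ne'
  field_simp

theorem gr_zero : gr 0 = fun z => -Real.log ‖z‖ := by
  ext z
  simp [gr]

theorem gradient_gr_zero {z : ℂ} (hz : z ≠ 0) :
    HasGradientAt (gr 0) (-(((‖z‖ ^ 2)⁻¹ : ℝ) • z)) z := by
  rw [gr_zero, hasGradientAt_iff_hasFDerivAt]
  have hn : ‖z‖ ^ 2 ≠ 0 := by
    have := norm_pos_iff.mpr hz
    positivity
  have h1 := ((hasStrictFDerivAt_norm_sq z).hasFDerivAt.log hn).const_mul (-(1 / 2 : ℝ))
  have h2 : (fun z : ℂ => -Real.log ‖z‖) = fun z : ℂ => -(1 / 2 : ℝ) * Real.log (‖z‖ ^ 2) := by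
    ext w
    rw [Real.log_pow]
    push_cast
    ring
  rw [h2]
  refine h1.congr_fderiv ?_
  ext v
  simp only [toDual_apply_apply, inner_neg_left, real_inner_smul_left,
    smul_apply, smul_eq_mul, innerSL_apply_apply]
  ring

theorem green_unique {g : ℂ → ℝ} (hg : IsGreenFn DD 0 g) : EqOn g (gr 0) (DD \ {0}) := by
  have h0 := isGreenFn_gr zero_mem_DD
  intro z hz
  exact le_antisymm (hg.2.2 _ h0.1 h0.2.1 z hz) (h0.2.2 _ hg.1 hg.2.1 z hz)

theorem gradient_green {g : ℂ → ℝ} (hg : IsGreenFn DD 0 g) {z : ℂ} (hz : z ∈ DD \ {0}) :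
    gradient g z = -(((‖z‖ ^ 2)⁻¹ : ℝ) • z) := by
  have h1 : g =ᶠ[𝓝 z] gr 0 := by
    filter_upwards [(isOpen_DD.sdiff isClosed_singleton).mem_nhds hz] with w hw
    exact green_unique hg hw
  rw [h1.gradient_eq]
  exact (gradient_gr_zero hz.2).gradient

/-- classification of the integral curves issuing from 0 -/
theorem curve_form {g : ℂ → ℝ} (hg : IsGreenFn DD 0 g) {γ : ℝ → ℂ} {I : Set ℝ}
    (h : IsGradientCurve DD 0 g γ I) :
    ∃ (c : ℝ) (u : ℂ), ‖u‖ = 1 ∧ (∀ t ∈ I, 0 < 2 * t + c ∧ γ t = (Real.sqrt (2 * t + c) : ℂ) * u) ∧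
      ∀ ε > 0, ∃ s ∈ I, 2 * s + c < ε := by
  obtain ⟨hIo, hIc, ⟨t₀, ht₀⟩, hder, hleft⟩ := h
  have hIpre : IsPreconnected I := hIc.isPreconnected
  have hd : ∀ t ∈ I, HasDerivAt γ (((‖γ t‖ ^ 2)⁻¹ : ℝ) • γ t) t := by
    intro t ht
    have h1 := (hder t ht).2.2
    rw [gradient_green hg (hder t ht).1, neg_neg] at h1
    exact h1
  have hpos : ∀ t ∈ I, 0 < ‖γ t‖ := fun t ht => norm_pos_iff.mpr (hder t ht).1.2
  have hN : ∀ t ∈ I, HasDerivAt (fun s => ‖γ s‖ ^ 2) 2 t := by
    intro t ht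
    have h1 := (hd t ht).norm_sq
    have h2 : 2 * inner ℝ (γ t) (((‖γ t‖ ^ 2)⁻¹ : ℝ) • γ t) = 2 := by
      rw [inner_smul_right, real_inner_self_eq_norm_sq]
      have := hpos t ht
      field_simp
    rw [h2] at h1
    exact h1
  set c : ℝ := ‖γ t₀‖ ^ 2 - 2 * t₀ with hc
  have hNc : ∀ t ∈ I, ‖γ t‖ ^ 2 = 2 * t + c := by
    intro t ht
    have h1 : ∀ s ∈ I, HasDerivAt (fun s => ‖γ s‖ ^ 2 - 2 * s) 0 s := by
      intro s hs
      have := (hN s hs).sub ((hasDerivAt_id s).const_mul 2)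
      rw [mul_one, sub_self] at this
      exact this
    have := hIo.is_const_of_deriv_eq_zero hIpre (f := fun s => ‖γ s‖ ^ 2 - 2 * s)
      (fun s hs => (h1 s hs).differentiableAt.differentiableWithinAt)
      (fun s hs => (h1 s hs).deriv) ht ht₀
    linarith
  have hn : ∀ t ∈ I, HasDerivAt (fun s => ‖γ s‖) (‖γ t‖)⁻¹ t := by
    intro t ht
    have h1 := (hN t ht).sqrt (by have := hpos t ht; positivity)
    have h2 : (fun s => Real.sqrt (‖γ s‖ ^ 2)) = fun s => ‖γ s‖ := by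
      ext s
      rw [Real.sqrt_sq (norm_nonneg _)]
    rw [h2, Real.sqrt_sq (norm_nonneg _)] at h1
    have h3 : 2 / (2 * ‖γ t‖) = (‖γ t‖)⁻¹ := by
      have := hpos t ht
      field_simp
    rw [h3] at h1
    exact h1
  have hu : ∀ t ∈ I, HasDerivAt (fun s => (‖γ s‖⁻¹ : ℝ) • γ s) 0 t := by
    intro t ht
    have hp := hpos t ht
    have h1 := ((hn t ht).inv hp.ne').smul (hd t ht)
    have h2 : (‖γ t‖⁻¹ • ((‖γ t‖ ^ 2)⁻¹ • γ t) + (-‖γ t‖⁻¹ / ‖γ t‖ ^ 2) • γ t) = 0 := by
      rw [smul_smul, ← add_smul]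
      have : ‖γ t‖⁻¹ * (‖γ t‖ ^ 2)⁻¹ + -‖γ t‖⁻¹ / ‖γ t‖ ^ 2 = 0 := by
        field_simp
        ring
      rw [this, zero_smul]
    simp only [Pi.inv_apply] at h1
    rw [h2] at h1
    exact h1
  set u : ℂ := (‖γ t₀‖⁻¹ : ℝ) • γ t₀ with hudef
  have hunorm : ‖u‖ = 1 := by
    have hp := hpos t₀ ht₀
    rw [hudef, norm_smul, norm_inv, norm_norm]
    field_simp
  refine ⟨c, u, hunorm, ?_, ?_⟩
  · intro t ht
    have hp := hpos t ht
    have h1 := hIo.is_const_of_deriv_eq_zero hIpre (f := fun s => (‖γ s‖⁻¹ : ℝ) • γ s)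
      (fun s hs => (hu s hs).differentiableAt.differentiableWithinAt)
      (fun s hs => (hu s hs).deriv) ht ht₀
    have h2 := hNc t ht
    constructor
    · rw [← h2]; positivity
    · rw [← h2, Real.sqrt_sq (norm_nonneg _), hudef, ← h1, Complex.real_smul, ← mul_assoc,
        ← Complex.ofReal_mul, mul_inv_cancel₀ hp.ne', Complex.ofReal_one, one_mul]
  · intro ε hε
    obtain ⟨s, hs, hs2⟩ := hleft (ball 0 (Real.sqrt ε)) (ball_mem_nhds _ (Real.sqrt_pos.mpr hε))
    refine ⟨s, hs, ?_⟩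
    have h1 := hs2 s hs le_rfl
    rw [mem_ball, dist_zero_right] at h1
    rw [← hNc s hs]
    calc ‖γ s‖ ^ 2 < (Real.sqrt ε) ^ 2 := by
          apply pow_lt_pow_left₀ h1 (norm_nonneg _) two_ne_zero
      _ = ε := Real.sq_sqrt hε.le

/-- the explicit curves -/
theorem explicit_curve {g : ℂ → ℝ} (hg : IsGreenFn DD 0 g) {u : ℂ} (hu : ‖u‖ = 1) (c b : ℝ)
    (hb0 : 0 < b) (hb : b ≤ 1) (hbu : ∀ s : ℝ, 0 < s → s ^ 2 < b → (s : ℂ) * u ≠ 1 / 2) :
    IsGradientCurve DD 0 g (fun t => (Real.sqrt (2 * t + c) : ℂ) * u)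
      {t | 0 < 2 * t + c ∧ 2 * t + c < b} := by
  refine ⟨?_, ?_, ?_, ?_, ?_⟩
  · apply IsOpen.inter
    · exact isOpen_lt continuous_const (by fun_prop : Continuous fun t : ℝ => 2 * t + c)
    · exact isOpen_lt (by fun_prop : Continuous fun t : ℝ => 2 * t + c) continuous_const
  · refine ⟨?_⟩
    intro x hx y hy z hz
    simp only [mem_ofPred_eq] at hx hy ⊢
    constructor
    · linarith [hz.1, hx.1]
    · linarith [hz.2, hy.2]
  · refine ⟨(b / 2 - c) / 2, ?_⟩
    simp only [mem_ofPred_eq]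
    constructor <;> linarith
  · intro t ht
    simp only [mem_ofPred_eq] at ht
    set s := Real.sqrt (2 * t + c) with hs
    have hspos : 0 < s := Real.sqrt_pos.mpr ht.1
    have hs2 : s ^ 2 = 2 * t + c := Real.sq_sqrt ht.1.le
    have hnorm : ‖(s : ℂ) * u‖ = s := by rw [norm_mul, hu, mul_one, norm_ofReal_pos hspos]
    have hmem : (s : ℂ) * u ∈ DD \ {0} := by
      refine ⟨?_, ?_⟩
      · rw [mem_DD, hnorm]
        refine ⟨?_, ?_⟩
        · nlinarith
        · apply hbu s hspos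
          rw [hs2]; exact ht.2
      · intro hcon
        have : ‖(s : ℂ) * u‖ = 0 := by rw [hcon]; simp
        rw [hnorm] at this
        linarith
    have hgrad := gradient_green hg hmem
    refine ⟨hmem, ?_, ?_⟩
    · rw [hgrad, hnorm, neg_ne_zero]
      apply smul_ne_zero
      · positivity
      · exact hmem.2
    · rw [hgrad, hnorm, neg_neg]
      have h1 : HasDerivAt (fun t : ℝ => 2 * t + c) 2 t := by
        simpa using ((hasDerivAt_id t).const_mul 2).add_const c
      have h2 := h1.sqrt ht.1.ne'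
      have h3 := (h2.ofReal_comp).mul_const u
      refine h3.congr_deriv ?_
      rw [← hs, Complex.real_smul]
      have hsc : (s : ℂ) ≠ 0 := by exact_mod_cast hspos.ne'
      push_cast
      field_simp
  · intro U hU
    obtain ⟨ε, hε, hball⟩ := Metric.mem_nhds_iff.mp hU
    set e : ℝ := min (ε ^ 2) b / 2 with he
    have hepos : 0 < e := by positivity
    refine ⟨(e - c) / 2, ?_, ?_⟩
    · simp only [mem_ofPred_eq]
      have : min (ε ^ 2) b ≤ b := min_le_right _ _
      constructor <;> linarith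
    · intro t ht hts
      simp only [mem_ofPred_eq] at ht
      apply hball
      have hspos : 0 < Real.sqrt (2 * t + c) := Real.sqrt_pos.mpr ht.1
      rw [mem_ball, dist_zero_right, norm_mul, hu, mul_one, norm_ofReal_pos hspos]
      rw [Real.sqrt_lt' hε]
      have : min (ε ^ 2) b ≤ ε ^ 2 := min_le_left _ _
      have : 0 < ε ^ 2 := by positivity
      linarith

/-- a curve in direction 1 stays in (0,1/2) -/
theorem curve_one_bound {I : Set ℝ} {γ : ℝ → ℂ} {c : ℝ} {g : ℂ → ℝ}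
    (h : IsGradientCurve DD 0 g γ I)
    (hf : ∀ t ∈ I, 0 < 2 * t + c ∧ γ t = (Real.sqrt (2 * t + c) : ℂ) * 1)
    (hl : ∀ ε > 0, ∃ s ∈ I, 2 * s + c < ε) :
    I ⊆ {t | 0 < 2 * t + c ∧ 2 * t + c < 1 / 4} := by
  intro t ht
  refine ⟨(hf t ht).1, ?_⟩
  by_contra hcon
  push Not at hcon
  obtain ⟨s, hs, hs2⟩ := hl (1 / 4) (by norm_num)
  have hmem : (1 / 4 - c) / 2 ∈ I := by
    apply h.2.1.out hs ht
    constructor <;> linarith
  have h1 := (hf _ hmem).2
  have h2 := (h.2.2.2.1 _ hmem).1.1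
  rw [h1, mem_DD] at h2
  apply h2.2
  have h3 : 2 * ((1 / 4 - c) / 2) + c = (1 / 2) ^ 2 := by ring
  rw [h3, Real.sqrt_sq (by norm_num)]
  push_cast
  ring

theorem curve_bound {I : Set ℝ} {γ : ℝ → ℂ} {c : ℝ} {g : ℂ → ℝ} {u : ℂ} (hu : ‖u‖ = 1)
    (h : IsGradientCurve DD 0 g γ I)
    (hf : ∀ t ∈ I, 0 < 2 * t + c ∧ γ t = (Real.sqrt (2 * t + c) : ℂ) * u) :
    I ⊆ {t | 0 < 2 * t + c ∧ 2 * t + c < 1} := by
  intro t ht
  have h0 := (hf t ht).1
  refine ⟨h0, ?_⟩
  have h2 := (h.2.2.2.1 _ ht).1.1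
  rw [(hf t ht).2, mem_DD] at h2
  have h3 := h2.1
  rw [norm_mul, hu, mul_one, norm_ofReal_pos (Real.sqrt_pos.mpr h0)] at h3
  have h4 : Real.sqrt (2 * t + c) ^ 2 < 1 := by
    nlinarith [Real.sqrt_pos.mpr h0]
  rwa [Real.sq_sqrt h0.le] at h4

theorem half_pos_real {s : ℝ} {u : ℂ} (hu : ‖u‖ = 1) (hs : 0 < s) (h : (s : ℂ) * u = 1 / 2) :
    u = 1 ∧ s = 1 / 2 := by
  have h1 : ‖(s : ℂ) * u‖ = 1 / 2 := by rw [h]; norm_num
  rw [norm_mul, hu, mul_one, norm_ofReal_pos hs] at h1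
  refine ⟨?_, h1⟩
  rw [h1] at h
  push_cast at h
  have h2 : (2 : ℂ) * (1 / 2 * u) = 2 * (1 / 2) := by rw [h]
  have h3 : (2 : ℂ) * (1 / 2 * u) = u := by ring
  rw [h3] at h2
  rw [h2]
  norm_num

theorem pk_lt {u : ℂ} (hu : ‖u‖ = 1) (hne : u ≠ 1) {s : ℝ} (hs0 : 0 < s) (hs1 : s < 1) :
    pk 1 ((s : ℂ) * u) < pk u ((s : ℂ) * u) := by
  have hnorm : ‖(s : ℂ) * u‖ = s := by rw [norm_mul, hu, mul_one, norm_ofReal_pos hs0]
  unfold pk
  rw [hnorm]
  have hu2 : u.re ^ 2 + u.im ^ 2 = 1 := by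
    have : ‖u‖ ^ 2 = 1 := by rw [hu]; norm_num
    rw [Complex.sq_norm, Complex.normSq_apply] at this
    linarith
  have hre : u.re < 1 := by
    by_contra hcon
    push Not at hcon
    apply hne
    have him : u.im = 0 := by nlinarith [sq_nonneg u.im]
    apply Complex.ext
    · rw [Complex.one_re]
      have : u.re ≤ 1 := by nlinarith [sq_nonneg u.im]
      linarith
    · rw [him, Complex.one_im]
  have h1 : ‖1 - (s : ℂ) * u‖ ^ 2 = 1 - 2 * s * u.re + s ^ 2 := by
    rw [Complex.sq_norm, Complex.normSq_apply]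
    simp
    nlinarith
  have h2 : ‖u - (s : ℂ) * u‖ ^ 2 = (1 - s) ^ 2 := by
    have : u - (s : ℂ) * u = ((1 - s : ℝ) : ℂ) * u := by push_cast; ring
    rw [this, norm_mul, hu, mul_one, norm_ofReal_pos (by linarith)]
  rw [h1, h2]
  apply div_lt_div_of_pos_left
  · nlinarith
  · nlinarith
  · nlinarith

theorem le_harnack {h : ℂ → ℝ} {z : ℂ} (hh : PosHarmonic DD h) (h0 : h 0 ≤ 1) :
    ENNReal.ofReal (h z) ≤ harnackFn DD 0 z :=
  le_iSup (fun h : {h : ℂ → ℝ // PosHarmonic DD h ∧ h 0 ≤ 1} => ENNReal.ofReal (h.1 z)) ⟨h, hh, h0⟩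

theorem posHarmonic_pk {u : ℂ} (hu : ‖u‖ = 1) : PosHarmonic DD (pk u) :=
  ⟨fun _ hz => harmonicAt_pk hu (mem_DD.mp hz).1, fun _ hz => pk_pos hu (mem_DD.mp hz).1⟩

/-- the normalised Green function with pole 1/2, a positive harmonic function on `DD` -/
noncomputable def ka (z : ℂ) : ℝ := (Real.log 2)⁻¹ * gr (1 / 2) z

theorem posHarmonic_ka : PosHarmonic DD ka := by
  have hn : ‖(1 / 2 : ℂ)‖ < 1 := by norm_num
  constructor
  · intro z hz
    have h1 := harmonicAt_gr hn (mem_DD.mp hz).1 (mem_DD.mp hz).2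
    exact h1.const_smul (c := (Real.log 2)⁻¹)
  · intro z hz
    have h1 := gr_pos hn (mem_DD.mp hz).1 (mem_DD.mp hz).2
    have h2 : 0 < Real.log 2 := Real.log_pos (by norm_num)
    unfold ka
    positivity

theorem ka_zero : ka 0 = 1 := by
  unfold ka gr
  have h2 : 0 < Real.log 2 := Real.log_pos (by norm_num)
  have h3 : ‖1 - (starRingEnd ℂ) (1 / 2) * 0‖ / ‖(0 : ℂ) - 1 / 2‖ = 2 := by
    norm_num
  rw [h3]
  field_simp

theorem ka_big : pk 1 ((7 / 16 : ℝ) : ℂ) < ka ((7 / 16 : ℝ) : ℂ) := by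
  have h1 : pk 1 ((7 / 16 : ℝ) : ℂ) = 23 / 9 := by
    unfold pk
    rw [norm_ofReal_pos (by norm_num)]
    have : (1 : ℂ) - ((7 / 16 : ℝ) : ℂ) = ((9 / 16 : ℝ) : ℂ) := by push_cast; norm_num
    rw [this, norm_ofReal_pos (by norm_num)]
    norm_num
  have h2 : 0 < Real.log 2 := Real.log_pos (by norm_num)
  have h3 : gr (1 / 2) ((7 / 16 : ℝ) : ℂ) = Real.log (25 / 2) := by
    unfold gr
    have e1 : 1 - (starRingEnd ℂ) (1 / 2) * ((7 / 16 : ℝ) : ℂ) = ((25 / 32 : ℝ) : ℂ) := by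
      have : (starRingEnd ℂ) (1 / 2) = ((1 / 2 : ℝ) : ℂ) := by
        have : (1 / 2 : ℂ) = ((1 / 2 : ℝ) : ℂ) := by push_cast; rfl
        rw [this, Complex.conj_ofReal]
      rw [this]
      push_cast
      norm_num
    have e2 : ((7 / 16 : ℝ) : ℂ) - 1 / 2 = -((1 / 16 : ℝ) : ℂ) := by
      push_cast
      norm_num
    rw [e1, e2, norm_neg, norm_ofReal_pos (by norm_num), norm_ofReal_pos (by norm_num)]
    norm_num
  have h4 : 3 * Real.log 2 < Real.log (25 / 2) := by
    have : 3 * Real.log 2 = Real.log (2 ^ 3) := by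
      rw [Real.log_pow]; norm_num
    rw [this]
    apply Real.log_lt_log (by norm_num)
    norm_num
  rw [h1]
  unfold ka
  rw [h3, inv_mul_eq_div, lt_div_iff₀ h2]
  linarith

theorem greenLine_fails {g : ℂ → ℝ} (hg : IsGreenFn DD 0 g) {γ : ℝ → ℂ} {I : Set ℝ}
    (h : IsGreenLine DD 0 g γ I) :
    ∃ t ∈ I, ENNReal.ofReal (pk 1 (γ t)) < harnackFn DD 0 (γ t) := by
  obtain ⟨c, u, hu, hf, hl⟩ := curve_form hg h.1
  by_cases hu1 : u = 1
  · subst hu1
    have hI := curve_one_bound h.1 hf hl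
    have hc := explicit_curve hg (u := 1) (by simp) c (1 / 4) (by norm_num) (by norm_num) (by
      intro s hs0 hs1 hcon
      have := (half_pos_real (by simp) hs0 hcon).2
      rw [this] at hs1
      norm_num at hs1)
    have hsub := h.2 _ _ hc hI (fun t ht => ((hf t ht).2).symm)
    have hmem : (49 / 256 - c) / 2 ∈ I := by
      apply hsub
      constructor
      · have : 2 * ((49 / 256 - c) / 2) + c = 49 / 256 := by ring
        rw [this]; norm_num
      · have : 2 * ((49 / 256 - c) / 2) + c = 49 / 256 := by ring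
        rw [this]; norm_num
    refine ⟨_, hmem, ?_⟩
    have hval : γ ((49 / 256 - c) / 2) = ((7 / 16 : ℝ) : ℂ) := by
      rw [(hf _ hmem).2]
      have : 2 * ((49 / 256 - c) / 2) + c = (7 / 16) ^ 2 := by ring
      rw [this, Real.sqrt_sq (by norm_num), mul_one]
    rw [hval]
    refine lt_of_lt_of_le ?_ (le_harnack posHarmonic_ka ka_zero.le)
    rw [ENNReal.ofReal_lt_ofReal_iff]
    · exact ka_big
    · refine lt_trans ?_ ka_big
      apply pk_pos (by simp)
      rw [norm_ofReal_pos (by norm_num)]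
      norm_num
  · obtain ⟨t, ht⟩ := h.1.2.2.1
    refine ⟨t, ht, ?_⟩
    have h1 := (hf t ht).2
    have h0 := (hf t ht).1
    have hI := curve_bound hu h.1 hf ht
    have hs0 : 0 < Real.sqrt (2 * t + c) := Real.sqrt_pos.mpr h0
    have hs1 : Real.sqrt (2 * t + c) < 1 := by
      rw [Real.sqrt_lt' one_pos]
      simpa using hI.2
    rw [h1]
    refine lt_of_lt_of_le ?_ (le_harnack (posHarmonic_pk hu) (pk_zero hu).le)
    have hlt := pk_lt hu hu1 hs0 hs1
    rw [ENNReal.ofReal_lt_ofReal_iff]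
    · exact hlt
    · refine lt_trans ?_ hlt
      apply pk_pos (by simp)
      rw [norm_mul, hu, mul_one, norm_ofReal_pos hs0]
      exact hs1

/-- every direction is the initial direction of a Green line -/
theorem greenLine_exists {g : ℂ → ℝ} (hg : IsGreenFn DD 0 g) {u : ℂ} (hu : ‖u‖ = 1) :
    ∃ γ I, IsGreenLine DD 0 g γ I ∧ ∀ t ∈ I, γ t = (‖γ t‖ : ℂ) * u := by
  -- common argument
  have key : ∀ b : ℝ, 0 < b → b ≤ 1 → (∀ s : ℝ, 0 < s → s ^ 2 < b → (s : ℂ) * u ≠ 1 / 2) →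
      (∀ γ' I' (c' : ℝ), IsGradientCurve DD 0 g γ' I' →
        (∀ t ∈ I', 0 < 2 * t + c' ∧ γ' t = (Real.sqrt (2 * t + c') : ℂ) * u) →
        (∀ ε > 0, ∃ s ∈ I', 2 * s + c' < ε) → I' ⊆ {t | 0 < 2 * t + c' ∧ 2 * t + c' < b}) →
      ∃ γ I, IsGreenLine DD 0 g γ I ∧ ∀ t ∈ I, γ t = (‖γ t‖ : ℂ) * u := by
    intro b hb0 hb1 hbu hmax
    have hc := explicit_curve hg hu 0 b hb0 hb1 hbu
    refine ⟨_, _, ⟨hc, ?_⟩, ?_⟩
    · intro γ' I' h' hII' heq
      obtain ⟨c', u', hu', hf', hl'⟩ := curve_form hg h'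
      obtain ⟨t₀, ht₀⟩ := hc.2.2.1
      have e1 := heq ht₀
      have e2 := (hf' t₀ (hII' ht₀)).2
      simp only at e1
      rw [e2] at e1
      have p1 : 0 < Real.sqrt (2 * t₀ + c') := Real.sqrt_pos.mpr (hf' t₀ (hII' ht₀)).1
      have p2 : 0 < Real.sqrt (2 * t₀ + 0) := Real.sqrt_pos.mpr ht₀.1
      have e3 : ‖(Real.sqrt (2 * t₀ + c') : ℂ) * u'‖ = ‖(Real.sqrt (2 * t₀ + 0) : ℂ) * u‖ := by
        rw [e1]
      rw [norm_mul, norm_mul, hu, hu', mul_one, mul_one, norm_ofReal_pos p1, norm_ofReal_pos p2] at e3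
      have e4 : c' = 0 := by
        have h1 := Real.sq_sqrt (hf' t₀ (hII' ht₀)).1.le
        have h2 := Real.sq_sqrt ht₀.1.le
        rw [e3] at h1
        linarith
      have e5 : u' = u := by
        rw [e3] at e1
        have h3 : ((Real.sqrt (2 * t₀ + 0) : ℝ) : ℂ) ≠ 0 := by exact_mod_cast p2.ne'
        exact mul_left_cancel₀ h3 e1
      subst e4
      subst e5
      exact hmax γ' I' 0 h' hf' hl'
    · intro t ht
      have p1 : 0 < Real.sqrt (2 * t + 0) := Real.sqrt_pos.mpr ht.1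
      rw [norm_mul, hu, mul_one, norm_ofReal_pos p1]
  by_cases hu1 : u = 1
  · subst hu1
    apply key (1 / 4) (by norm_num) (by norm_num)
    · intro s hs0 hs1 hcon
      have := (half_pos_real (by simp) hs0 hcon).2
      rw [this] at hs1
      norm_num at hs1
    · intro γ' I' c' h' hf' hl'
      exact curve_one_bound h' hf' hl'
  · apply key 1 (by norm_num) le_rfl
    · intro s hs0 hs1 hcon
      exact hu1 (half_pos_real hu hs0 hcon).1
    · intro γ' I' c' h' hf' _
      exact curve_bound hu h' hf'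


theorem pk_one_le {z : ℂ} (hz : z ∈ ball (1 / 2 : ℂ) (1 / 4)) : pk 1 z ≤ 16 := by
  rw [mem_ball, dist_eq_norm] at hz
  have h1 : 1 / 4 ≤ ‖1 - z‖ := by
    have h2 : (1 : ℂ) - z = 1 / 2 - (z - 1 / 2) := by ring
    have h3 := norm_sub_norm_le (1 / 2 : ℂ) (z - 1 / 2)
    rw [← h2, norm_half] at h3
    linarith
  unfold pk
  rw [div_le_iff₀ (by positivity)]
  nlinarith [sq_nonneg ‖z‖]

theorem ball_half_subset : ball (1 / 2 : ℂ) (1 / 4) ⊆ ball (0 : ℂ) 1 := by
  intro z hz
  rw [mem_ball, dist_eq_norm] at hz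
  rw [mem_ball, dist_zero_right]
  have h3 := norm_add_le (z - 1 / 2) (1 / 2 : ℂ)
  rw [sub_add_cancel, norm_half] at h3
  linarith

/-- minimality of the Poisson kernel in the punctured disc -/
theorem minimal_DD : IsMinimalHarmonic DD (pk 1) := by
  refine ⟨posHarmonic_pk (by simp), ?_⟩
  intro h hh hb
  have hsub : ball (1 / 2 : ℂ) (1 / 4) \ {(1 / 2 : ℂ)} ⊆ DD := by
    intro z hz
    exact ⟨ball_half_subset hz.1, hz.2⟩
  obtain ⟨k, hk, hkh⟩ := removable h (1 / 2) (1 / 4) 16 (by norm_num) (by norm_num)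
    (hh.mono hsub) (by
      intro w hw
      have h1 := hb w (hsub hw)
      rw [abs_of_nonneg h1.1]
      exact h1.2.trans (pk_one_le hw.1))
  set H : ℂ → ℝ := fun z => if z = 1 / 2 then k (1 / 2) else h z with hH
  have hHne : ∀ z, z ≠ 1 / 2 → H z = h z := fun z hz => if_neg hz
  have hHh : HarmonicOnNhd H (ball 0 1) := by
    intro z hz
    by_cases hz2 : z = 1 / 2
    · subst hz2
      rw [harmonicAt_congr_nhds (f₂ := k)]
      · exact hk _ (mem_ball_self (by norm_num))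
      · filter_upwards [ball_mem_nhds (1 / 2 : ℂ) (show (0 : ℝ) < 1 / 4 by norm_num)] with x hx
        by_cases hx2 : x = 1 / 2
        · subst hx2
          simp [hH]
        · rw [hHne x hx2]
          exact (hkh ⟨hx, hx2⟩).symm
    · rw [harmonicAt_congr_nhds (f₂ := h)]
      · exact hh z ⟨hz, hz2⟩
      · filter_upwards [isOpen_ne.mem_nhds hz2] with x hx
        exact hHne x hx
  have hkc : ContinuousAt k (1 / 2) := (hk _ (mem_ball_self (by norm_num))).1.continuousAt
  have hpc : ContinuousAt (pk 1) (1 / 2) :=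
    (harmonicAt_pk (u := 1) (z := 1 / 2) (by simp) (by norm_num)).1.continuousAt
  have hev : ∀ᶠ z in 𝓝[≠] (1 / 2 : ℂ), 0 ≤ k z ∧ k z ≤ pk 1 z := by
    filter_upwards [mem_nhdsWithin_of_mem_nhds (ball_mem_nhds (1 / 2 : ℂ)
      (show (0 : ℝ) < 1 / 4 by norm_num)), self_mem_nhdsWithin] with z hz1 hz2
    rw [hkh ⟨hz1, hz2⟩]
    exact hb z (hsub ⟨hz1, hz2⟩)
  have hk0 : 0 ≤ k (1 / 2) :=
    ge_of_tendsto (hkc.tendsto.mono_left nhdsWithin_le_nhds) (hev.mono fun z hz => hz.1)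
  have hk1 : k (1 / 2) ≤ pk 1 (1 / 2) :=
    le_of_tendsto_of_tendsto (hkc.tendsto.mono_left nhdsWithin_le_nhds)
      (hpc.tendsto.mono_left nhdsWithin_le_nhds) (hev.mono fun z hz => hz.2)
  have hHb : ∀ z ∈ ball (0 : ℂ) 1, 0 ≤ H z ∧ H z ≤ pk 1 z := by
    intro z hz
    by_cases hz2 : z = 1 / 2
    · subst hz2
      have : H (1 / 2) = k (1 / 2) := by simp [hH]
      rw [this]
      exact ⟨hk0, hk1⟩
    · rw [hHne z hz2]
      exact hb z ⟨hz, hz2⟩
  refine ⟨H 0, ?_⟩
  intro z hz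
  rw [← hHne z hz.2]
  exact minimal_disc H hHh hHb z hz.1

theorem martin_DD : IsMartinKernel DD 0 (pk 1) := by
  refine ⟨fun n => (yy n : ℂ), fun n => gr (yy n), ?_, ?_, ?_, ?_⟩
  · intro n
    refine ⟨?_, ?_⟩
    · rw [mem_DD, norm_ofReal_pos (yy_pos n)]
      refine ⟨yy_lt n, ?_⟩
      intro hcon
      change ((yy n : ℝ) : ℂ) = 1 / 2 at hcon
      have h1 : ((yy n : ℝ) : ℂ) = ((1 / 2 : ℝ) : ℂ) := by
        rw [hcon]; push_cast; rfl
      have h2 : yy n = 1 / 2 := by exact_mod_cast h1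
      linarith [yy_gt n]
    · intro hcon
      change ((yy n : ℝ) : ℂ) = 0 at hcon
      have h2 : yy n = 0 := by exact_mod_cast hcon
      linarith [yy_pos n]
  · intro C hC hCc
    have h1 : (1 : ℂ) ∉ C := by
      intro hcon
      have := (mem_DD.mp (hC hcon)).1
      simp at this
    have h2 : Cᶜ ∈ 𝓝 (1 : ℂ) := hCc.isClosed.isOpen_compl.mem_nhds h1
    have h3 : Tendsto (fun n => ((yy n : ℝ) : ℂ)) atTop (𝓝 1) := by
      have := (Complex.continuous_ofReal.tendsto 1).comp tendsto_yy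
      rw [Complex.ofReal_one] at this
      exact this
    exact h3.eventually h2
  · intro n
    apply isGreenFn_gr
    rw [mem_DD, norm_ofReal_pos (yy_pos n)]
    refine ⟨yy_lt n, ?_⟩
    intro hcon
    change ((yy n : ℝ) : ℂ) = 1 / 2 at hcon
    have h1 : ((yy n : ℝ) : ℂ) = ((1 / 2 : ℝ) : ℂ) := by
      rw [hcon]; push_cast; rfl
    have h2 : yy n = 1 / 2 := by exact_mod_cast h1
    linarith [yy_gt n]
  · intro z hz
    exact tendsto_martin z (mem_DD.mp hz).1

/-- There are a multiply connected Green domain `D`, a point `z₀` and a minimal Martin kernel `K`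
such that every Green line issuing from `z₀` contains a point where `K < H_{z₀}`. -/
theorem result : ∃ (D : Set ℂ) (z₀ : ℂ) (K : ℂ → ℝ),
    IsOpen D ∧ IsConnected D ∧ ¬ IsSimplyConnected D ∧ z₀ ∈ D ∧ (∀ y ∈ D, ∃ g, IsGreenFn D y g) ∧
    IsMartinKernel D z₀ K ∧ IsMinimalHarmonic D K ∧ K z₀ = 1 ∧
    ∀ g, IsGreenFn D z₀ g →
      (∀ u : ℂ, ‖u‖ = 1 → ∃ γ I, IsGreenLine D z₀ g γ I ∧ LeavesInDirection z₀ γ I u) ∧
      ∀ γ I, IsGreenLine D z₀ g γ I →
        ∃ t ∈ I, ENNReal.ofReal (K (γ t)) < harnackFn D z₀ (γ t) := by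
  refine ⟨DD, 0, pk 1, isOpen_DD, isConnected_DD, not_isSimplyConnected_DD, zero_mem_DD,
    fun y hy => ⟨gr y, isGreenFn_gr hy⟩, martin_DD, minimal_DD, pk_zero (by simp), ?_⟩
  intro g hg
  refine ⟨?_, fun γ I h => greenLine_fails hg h⟩
  intro u hu
  obtain ⟨γ, I, hγ, hdir⟩ := greenLine_exists hg hu
  refine ⟨γ, I, hγ, ?_⟩
  intro U hU
  obtain ⟨s, hs⟩ := hγ.1.2.2.1
  refine ⟨s, hs, ?_⟩
  intro t ht _
  have hne : γ t ≠ 0 := (hγ.1.2.2.2.1 t ht).1.2
  have hn : ((‖γ t‖ : ℝ) : ℂ) ≠ 0 := by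
    have := norm_pos_iff.mpr hne
    exact_mod_cast this.ne'
  have h1 : (γ t - 0) / (‖γ t - 0‖ : ℂ) = u := by
    rw [sub_zero]
    nth_rewrite 1 [hdir t ht]
    field_simp
  rw [h1]
  exact mem_of_mem_nhds hU

end Pool.Agent.Results.MP_e6ddea_an.PuncturedDisc
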